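import Mathlib

set_option autoImplicit false

namespace Pool.Agent.MP663568h87

/-- The logarithmic sum `S_f(N,H)` of the problem. -/
noncomputable def S {G : Type} [Group G] (Γ : Subgroup G) (f : G ⧸ Γ → ℂ) (x₀ : G)
    (N H : ℕ) : ℝ :=
  ∑ n ∈ Finset.Icc 1 N, (1 / (n : ℝ)) *
          ⨆ g : G, ‖∑ h ∈ Finset.Icc 1 H,
            f (QuotientGroup.mk (g ^ (h + n) * x₀) : G ⧸ Γ) *
              ((ArithmeticFunction.moebius (n + h) : ℤ) : ℂ)‖

end Pool.Agent.MP663568h87
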