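import Pool.Agent.Lib.MP_663568_nt_h87.Lower

set_option autoImplicit false

namespace Pool.Agent.MP663568h87

open MeasureTheory intervalIntegral Complex ArithmeticFunction

/-- A nonconstant continuous periodic function has a nonzero Fourier coefficient. -/
lemma exists_coeff (F : ℝ → ℂ) (hc : Continuous F) (hp : Function.Periodic F 1)
    (hne : ∃ s, F s ≠ F 0) :
    ∃ k : ℤ, k ≠ 0 ∧ (∫ s in (0:ℝ)..1, F s * Complex.exp (-(2 * Real.pi * I * k * s))) ≠ 0 := by
  by_contra hcon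
  push Not at hcon
  have : Fact ((0:ℝ) < 1) := ⟨one_pos⟩
  let f : C(AddCircle (1:ℝ), ℂ) := ⟨hp.lift, by
    apply Continuous.quotient_lift hc⟩
  have hf : ∀ s : ℝ, f (s : AddCircle (1:ℝ)) = F s := fun s => hp.lift_coe s
  have hcoef : ∀ k : ℤ, k ≠ 0 → fourierCoeff f k = 0 := by
    intro k hk
    rw [fourierCoeff_eq_intervalIntegral f k 0]
    have := hcon k hk
    simp only [one_div, inv_one, zero_add, one_smul]
    rw [← this]
    congr 1
    funext s
    rw [hf s, fourier_coe_apply]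
    simp only [smul_eq_mul]
    rw [mul_comm]
    congr 2
    push_cast; ring
  have hsum : Summable (fourierCoeff f) := by
    apply summable_of_ne_finset_zero (s := {0})
    intro b hb
    apply hcoef
    simpa using hb
  have hval : ∀ x : AddCircle (1:ℝ), f x = fourierCoeff f 0 := by
    intro x
    have h1 := has_pointwise_sum_fourier_series_of_summable hsum x
    have h2 : HasSum (fun i => fourierCoeff f i • fourier i x) (fourierCoeff f 0) := by
      have := hasSum_single (f := fun i => fourierCoeff f i • fourier i x) (0 : ℤ) (by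
        intro b hb
        rw [hcoef b hb, zero_smul])
      simpa using this
    exact h1.unique h2
  obtain ⟨s, hs⟩ := hne
  apply hs
  rw [← hf s, ← hf 0, hval, hval]

lemma log_le_mu (N : ℕ) :
    (6 / Real.pi ^ 2) * Real.log N ≤
      ∑ m ∈ Finset.Icc 1 N, ((moebius m : ℤ) : ℝ) ^ 2 / m := by
  have h1 : Real.log N ≤ ∑ n ∈ Finset.Icc 1 N, (1 : ℝ) / n := by
    rcases Nat.eq_zero_or_pos N with h0 | h0
    · subst h0; simp
    · have := log_add_one_le_harmonic N
      have h2 : (harmonic N : ℝ) = ∑ n ∈ Finset.Icc 1 N, (1 : ℝ) / n := by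
        rw [harmonic_eq_sum_Icc]; push_cast; simp
      rw [← h2]
      refine le_trans ?_ this
      apply Real.log_le_log
      · exact_mod_cast h0
      · push_cast; linarith
  have h2 : ∑ n ∈ Finset.Icc 1 N, (1 : ℝ) / n ≤
      (∑ d ∈ Finset.Icc 1 N, (1 : ℝ) / (d : ℝ) ^ 2) *
        ∑ m ∈ Finset.Icc 1 N, ((moebius m : ℤ) : ℝ) ^ 2 / m := by
    rw [Finset.sum_mul_sum, ← Finset.sum_product']
    have hex : ∀ n : ℕ, ∃ q : ℕ × ℕ, 0 < n → (q.1 ^ 2 * q.2 = n ∧ Squarefree q.2 ∧ 0 < q.1 ∧ 0 < q.2) := by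
      intro n
      rcases Nat.eq_zero_or_pos n with h0 | h0
      · exact ⟨(0, 0), fun h => absurd h (by omega)⟩
      · obtain ⟨a, b, ha, hb, hab, hsq⟩ := Nat.sq_mul_squarefree_of_pos h0
        exact ⟨(b, a), fun _ => ⟨hab, hsq, hb, ha⟩⟩
    choose φ hφ using hex
    have hinj : Set.InjOn φ (Finset.Icc 1 N : Set ℕ) := by
      intro x hx y hy hxy
      simp only [Finset.coe_Icc, Set.mem_Icc] at hx hy
      rw [← (hφ x (by omega)).1, ← (hφ y (by omega)).1, hxy]
    have hterm : ∀ n ∈ Finset.Icc 1 N, (1 : ℝ) / n =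
        1 / ((φ n).1 : ℝ) ^ 2 * (((moebius (φ n).2 : ℤ) : ℝ) ^ 2 / (φ n).2) := by
      intro n hn
      rw [Finset.mem_Icc] at hn
      obtain ⟨e1, e2, e3, e4⟩ := hφ n (by omega)
      have e5 : ((moebius (φ n).2 : ℤ) : ℝ) ^ 2 = 1 := by
        have := moebius_sq_eq_one_of_squarefree e2
        exact_mod_cast this
      rw [e5]
      have e6 : (n : ℝ) = ((φ n).1 : ℝ) ^ 2 * (φ n).2 := by exact_mod_cast e1.symm
      rw [e6]
      have : ((φ n).1 : ℝ) ≠ 0 := by positivity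
      have : ((φ n).2 : ℝ) ≠ 0 := by positivity
      field_simp
    rw [Finset.sum_congr rfl hterm,
      ← Finset.sum_image (f := fun q : ℕ × ℕ => 1 / (q.1 : ℝ) ^ 2 *
        (((moebius q.2 : ℤ) : ℝ) ^ 2 / q.2)) (fun x hx y hy h => hinj hx hy h)]
    apply Finset.sum_le_sum_of_subset_of_nonneg
    · intro q hq
      rw [Finset.mem_image] at hq
      obtain ⟨n, hn, rfl⟩ := hq
      rw [Finset.mem_Icc] at hn
      obtain ⟨e1, e2, e3, e4⟩ := hφ n (by omega)
      rw [Finset.mem_product, Finset.mem_Icc, Finset.mem_Icc]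
      refine ⟨⟨e3, ?_⟩, e4, ?_⟩
      · nlinarith [Nat.le_self_pow (two_ne_zero) (φ n).1]
      · nlinarith [Nat.pow_pos (n := 2) e3]
    · intro q _ _
      positivity
  have h3 : ∑ d ∈ Finset.Icc 1 N, (1 : ℝ) / (d : ℝ) ^ 2 ≤ Real.pi ^ 2 / 6 :=
    sum_le_hasSum _ (fun _ _ => by positivity) hasSum_zeta_two
  have h4 : 0 ≤ ∑ m ∈ Finset.Icc 1 N, ((moebius m : ℤ) : ℝ) ^ 2 / m :=
    Finset.sum_nonneg (fun _ _ => by positivity)
  have h5 : Real.log N ≤ Real.pi ^ 2 / 6 *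
      ∑ m ∈ Finset.Icc 1 N, ((moebius m : ℤ) : ℝ) ^ 2 / m :=
    le_trans h1 (le_trans h2 (mul_le_mul_of_nonneg_right h3 h4))
  have hpi : (0:ℝ) < Real.pi ^ 2 := by positivity
  calc (6 / Real.pi ^ 2) * Real.log N ≤ (6 / Real.pi ^ 2) * (Real.pi ^ 2 / 6 *
      ∑ m ∈ Finset.Icc 1 N, ((moebius m : ℤ) : ℝ) ^ 2 / m) :=
        mul_le_mul_of_nonneg_left h5 (by positivity)
    _ = _ := by field_simp

lemma harm_le (N : ℕ) (hN : 1 ≤ N) : ∑ n ∈ Finset.Icc 1 N, (1 : ℝ) / n ≤ 1 + Real.log N := by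
  have := harmonic_le_one_add_log N
  have h2 : (harmonic N : ℝ) = ∑ n ∈ Finset.Icc 1 N, (1 : ℝ) / n := by
    rw [harmonic_eq_sum_Icc]; push_cast; simp
  rw [← h2]; exact this

/-- Averaged count of squarefree numbers in windows. -/
lemma avg_lower (K H N : ℕ) (hH : 1 ≤ H) :
    (H : ℝ) * ((6 / Real.pi ^ 2) * Real.log N - (1 + Real.log (K + H))) ≤
    ∑ n ∈ (Finset.Icc 1 N).filter (fun n => K ≤ n), (1 / (n:ℝ)) *
      ∑ h ∈ Finset.Icc 1 H, ((moebius (n + h) : ℤ) : ℝ) ^ 2 := by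
  have h1 : ∀ h ∈ Finset.Icc 1 H,
      (6 / Real.pi ^ 2) * Real.log N - (1 + Real.log (K + H)) ≤
      ∑ n ∈ (Finset.Icc 1 N).filter (fun n => K ≤ n), (1 / (n:ℝ)) *
        ((moebius (n + h) : ℤ) : ℝ) ^ 2 := by
    intro h hh
    rw [Finset.mem_Icc] at hh
    have e1 : ∑ n ∈ (Finset.Icc 1 N).filter (fun n => K ≤ n),
        ((moebius (n + h) : ℤ) : ℝ) ^ 2 / ((n + h : ℕ) : ℝ) ≤
        ∑ n ∈ (Finset.Icc 1 N).filter (fun n => K ≤ n), (1 / (n:ℝ)) *
        ((moebius (n + h) : ℤ) : ℝ) ^ 2 := by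
      apply Finset.sum_le_sum
      intro n hn
      rw [Finset.mem_filter, Finset.mem_Icc] at hn
      rw [one_div, inv_mul_eq_div]
      apply div_le_div_of_nonneg_left (sq_nonneg _)
      · exact_mod_cast hn.1.1
      · push_cast; linarith [show (0:ℝ) ≤ h from Nat.cast_nonneg h]
    have e2 : ∑ m ∈ Finset.Icc 1 N, ((moebius m : ℤ) : ℝ) ^ 2 / m ≤
        (∑ m ∈ Finset.Icc 1 (K + H), (1 : ℝ) / m) +
        ∑ n ∈ (Finset.Icc 1 N).filter (fun n => K ≤ n),
        ((moebius (n + h) : ℤ) : ℝ) ^ 2 / ((n + h : ℕ) : ℝ) := by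
      have e3 : ∑ m ∈ Finset.Icc 1 N, ((moebius m : ℤ) : ℝ) ^ 2 / m ≤
          ∑ m ∈ Finset.Icc 1 (K + H) ∪ ((Finset.Icc 1 N).filter (fun n => K ≤ n)).image
            (fun n => n + h), ((moebius m : ℤ) : ℝ) ^ 2 / m := by
        apply Finset.sum_le_sum_of_subset_of_nonneg
        · intro m hm
          rw [Finset.mem_Icc] at hm
          rw [Finset.mem_union, Finset.mem_Icc, Finset.mem_image]
          by_cases hmk : m ≤ K + H
          · left; exact ⟨hm.1, hmk⟩
          · right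
            refine ⟨m - h, ?_, by omega⟩
            rw [Finset.mem_filter, Finset.mem_Icc]
            omega
        · intro _ _ _; positivity
      have e4 : ∑ m ∈ Finset.Icc 1 (K + H) ∪ ((Finset.Icc 1 N).filter (fun n => K ≤ n)).image
            (fun n => n + h), ((moebius m : ℤ) : ℝ) ^ 2 / m ≤
          (∑ m ∈ Finset.Icc 1 (K + H), ((moebius m : ℤ) : ℝ) ^ 2 / m) +
          ∑ m ∈ ((Finset.Icc 1 N).filter (fun n => K ≤ n)).image
            (fun n => n + h), ((moebius m : ℤ) : ℝ) ^ 2 / m := by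
        rw [← Finset.sum_union_inter]
        have : 0 ≤ ∑ m ∈ Finset.Icc 1 (K + H) ∩ ((Finset.Icc 1 N).filter (fun n => K ≤ n)).image
            (fun n => n + h), ((moebius m : ℤ) : ℝ) ^ 2 / m :=
          Finset.sum_nonneg (fun _ _ => by positivity)
        linarith
      have e5 : ∑ m ∈ ((Finset.Icc 1 N).filter (fun n => K ≤ n)).image
            (fun n => n + h), ((moebius m : ℤ) : ℝ) ^ 2 / m =
          ∑ n ∈ (Finset.Icc 1 N).filter (fun n => K ≤ n),
            ((moebius (n + h) : ℤ) : ℝ) ^ 2 / ((n + h : ℕ) : ℝ) := by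
        rw [Finset.sum_image (fun x _ y _ hxy => by simpa using hxy)]
      have e6 : ∑ m ∈ Finset.Icc 1 (K + H), ((moebius m : ℤ) : ℝ) ^ 2 / m ≤
          ∑ m ∈ Finset.Icc 1 (K + H), (1 : ℝ) / m := by
        apply Finset.sum_le_sum
        intro m _
        apply div_le_div_of_nonneg_right _ (Nat.cast_nonneg m)
        have := abs_moebius_le_one (n := m)
        have h7 : |((moebius m : ℤ) : ℝ)| ≤ 1 := by exact_mod_cast this
        rw [← sq_abs]
        nlinarith [abs_nonneg ((moebius m : ℤ) : ℝ)]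
      linarith
    have e7 := harm_le (K + H) (by omega)
    have e8 := log_le_mu N
    push_cast at e7
    linarith
  have h2 : ∑ n ∈ (Finset.Icc 1 N).filter (fun n => K ≤ n), (1 / (n:ℝ)) *
      ∑ h ∈ Finset.Icc 1 H, ((moebius (n + h) : ℤ) : ℝ) ^ 2 =
      ∑ h ∈ Finset.Icc 1 H, ∑ n ∈ (Finset.Icc 1 N).filter (fun n => K ≤ n), (1 / (n:ℝ)) *
        ((moebius (n + h) : ℤ) : ℝ) ^ 2 := by
    rw [Finset.sum_comm]
    apply Finset.sum_congr rfl
    intro n _
    rw [Finset.mul_sum]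
  rw [h2]
  calc (H : ℝ) * ((6 / Real.pi ^ 2) * Real.log N - (1 + Real.log (K + H)))
      = ∑ h ∈ Finset.Icc 1 H, ((6 / Real.pi ^ 2) * Real.log N - (1 + Real.log (K + H))) := by
        rw [Finset.sum_const, Nat.card_Icc]; simp
    _ ≤ _ := Finset.sum_le_sum h1

end Pool.Agent.MP663568h87
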