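import Mathlib
import Pool.Agent.Lib.MP_663568_nt_h87.Lower2

set_option autoImplicit false

/-!
# Families of bounded sequences with small short-window sums, the window being chosen freely
-/

namespace Pool.Agent.MP663568h87

/-- The short-window estimate for a family `Φ` of sequences, in which for every `n` the member `c n`
of the family and the sub-interval `(a n, b n]` of the window `(n, n + H]` are chosen freely. -/
def Good (Φ : Set (ℕ → ℂ)) : Prop :=
  ∀ ε : ℝ, 0 < ε → ∃ H₀ : ℕ, ∀ N H : ℕ, H₀ ≤ H → H ≤ N →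
    ∀ (c : ℕ → ℕ → ℂ) (a b : ℕ → ℕ), (∀ n, c n = 0 ∨ c n ∈ Φ) → (∀ n, n ≤ a n ∧ b n ≤ n + H) →
      ∑ n ∈ Finset.Icc 1 N, (1 / (n : ℝ)) * ‖∑ m ∈ Finset.Ioc (a n) (b n), c n m‖ ≤
        ε * H * Real.log N

lemma one_le_log {N : ℕ} (hN : 3 ≤ N) : 1 ≤ Real.log N := by
  rw [← Real.log_exp 1]
  apply Real.log_le_log (Real.exp_pos 1)
  have : (3 : ℝ) ≤ N := by exact_mod_cast hN
  linarith [Real.exp_one_lt_d9]

theorem Good.mono {Φ Ψ : Set (ℕ → ℂ)} (h : Good Ψ) (hs : Φ ⊆ Ψ) : Good Φ := by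
  intro ε hε
  obtain ⟨H₀, h₀⟩ := h ε hε
  exact ⟨H₀, fun N H h1 h2 c a b hc hab => h₀ N H h1 h2 c a b
    (fun n => (hc n).imp id (fun h => hs h)) hab⟩

theorem Good.split {Φ Φ₁ Φ₂ : Set (ℕ → ℂ)} (h1 : Good Φ₁) (h2 : Good Φ₂)
    (h : ∀ c ∈ Φ, ∃ c₁ c₂ : ℕ → ℂ, (c₁ = 0 ∨ c₁ ∈ Φ₁) ∧ (c₂ = 0 ∨ c₂ ∈ Φ₂) ∧
      ∀ m, c m = c₁ m + c₂ m) : Good Φ := by
  intro ε hε
  obtain ⟨H₁, hH₁⟩ := h1 (ε / 2) (by positivity)
  obtain ⟨H₂, hH₂⟩ := h2 (ε / 2) (by positivity)
  refine ⟨max H₁ H₂, fun N H hH hN c a b hc hab => ?_⟩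
  have h' : ∀ n, ∃ c₁ c₂ : ℕ → ℂ, (c₁ = 0 ∨ c₁ ∈ Φ₁) ∧ (c₂ = 0 ∨ c₂ ∈ Φ₂) ∧
      ∀ m, c n m = c₁ m + c₂ m := by
    intro n
    rcases hc n with h0 | h0
    · exact ⟨0, 0, Or.inl rfl, Or.inl rfl, fun m => by simp [h0]⟩
    · exact h (c n) h0
  choose c₁ c₂ hc₁ hc₂ hcc using h'
  have e1 := hH₁ N H (le_trans (le_max_left _ _) hH) hN c₁ a b hc₁ hab
  have e2 := hH₂ N H (le_trans (le_max_right _ _) hH) hN c₂ a b hc₂ hab
  calc ∑ n ∈ Finset.Icc 1 N, (1 / (n : ℝ)) * ‖∑ m ∈ Finset.Ioc (a n) (b n), c n m‖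
      ≤ ∑ n ∈ Finset.Icc 1 N, ((1 / (n : ℝ)) * ‖∑ m ∈ Finset.Ioc (a n) (b n), c₁ n m‖ +
          (1 / (n : ℝ)) * ‖∑ m ∈ Finset.Ioc (a n) (b n), c₂ n m‖) := by
        apply Finset.sum_le_sum
        intro n _
        rw [← mul_add]
        apply mul_le_mul_of_nonneg_left _ (by positivity)
        rw [Finset.sum_congr rfl (fun m _ => hcc n m), Finset.sum_add_distrib]
        exact norm_add_le _ _
    _ = _ := Finset.sum_add_distrib
    _ ≤ ε / 2 * H * Real.log N + ε / 2 * H * Real.log N := add_le_add e1 e2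
    _ = _ := by ring

theorem Good.empty : Good ∅ := by
  intro ε hε
  refine ⟨0, fun N H _ _ c a b hc _ => ?_⟩
  have : ∀ n ∈ Finset.Icc 1 N, (1 / (n : ℝ)) * ‖∑ m ∈ Finset.Ioc (a n) (b n), c n m‖ = 0 := by
    intro n _
    rcases hc n with h | h
    · simp [h]
    · exact absurd h (Set.notMem_empty _)
  rw [Finset.sum_eq_zero this]
  have := Real.log_natCast_nonneg N
  positivity

theorem Good.union {Φ Ψ : Set (ℕ → ℂ)} (h1 : Good Φ) (h2 : Good Ψ) : Good (Φ ∪ Ψ) := by
  refine Good.split h1 h2 ?_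
  rintro c (hc | hc)
  · exact ⟨c, 0, Or.inr hc, Or.inl rfl, fun m => by simp⟩
  · exact ⟨0, c, Or.inl rfl, Or.inr hc, fun m => by simp⟩

theorem Good.biUnion {ι : Type*} {s : Set ι} (hs : s.Finite) {Φ : ι → Set (ℕ → ℂ)}
    (h : ∀ i ∈ s, Good (Φ i)) : Good (⋃ i ∈ s, Φ i) := by
  induction s, hs using Set.Finite.induction_on with
  | empty => simpa using Good.empty
  | insert _ _ ih =>
    rw [Set.biUnion_insert]
    exact Good.union (h _ (Set.mem_insert _ _)) (ih fun i hi => h i (Set.mem_insert_of_mem _ hi))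

theorem Good.smul {Φ Ψ : Set (ℕ → ℂ)} (h : Good Ψ) (z : ℂ)
    (hz : ∀ c ∈ Φ, ∃ c' ∈ Ψ, ∀ m, c m = z * c' m) : Good Φ := by
  intro ε hε
  obtain ⟨H₁, hH₁⟩ := h (ε / (‖z‖ + 1)) (by positivity)
  refine ⟨H₁, fun N H hH hN c a b hc hab => ?_⟩
  have h' : ∀ n, ∃ c' : ℕ → ℂ, (c' = 0 ∨ c' ∈ Ψ) ∧ ∀ m, c n m = z * c' m := by
    intro n
    rcases hc n with h0 | h0
    · exact ⟨0, Or.inl rfl, fun m => by simp [h0]⟩
    · obtain ⟨c', h1, h2⟩ := hz (c n) h0
      exact ⟨c', Or.inr h1, h2⟩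
  choose c' hc' hcc using h'
  have e1 := hH₁ N H hH hN c' a b hc' hab
  have hlog := Real.log_natCast_nonneg N
  calc ∑ n ∈ Finset.Icc 1 N, (1 / (n : ℝ)) * ‖∑ m ∈ Finset.Ioc (a n) (b n), c n m‖
      = ‖z‖ * ∑ n ∈ Finset.Icc 1 N, (1 / (n : ℝ)) * ‖∑ m ∈ Finset.Ioc (a n) (b n), c' n m‖ := by
        rw [Finset.mul_sum]
        apply Finset.sum_congr rfl
        intro n _
        rw [Finset.sum_congr rfl (fun m _ => hcc n m), ← Finset.mul_sum, norm_mul]
        ring
    _ ≤ ‖z‖ * (ε / (‖z‖ + 1) * H * Real.log N) := mul_le_mul_of_nonneg_left e1 (norm_nonneg _)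
    _ = (‖z‖ / (‖z‖ + 1)) * (ε * H * Real.log N) := by ring
    _ ≤ 1 * (ε * H * Real.log N) := by
        apply mul_le_mul_of_nonneg_right _ (by positivity)
        rw [div_le_one (by positivity)]
        linarith
    _ = _ := one_mul _

/-- sums over a window of a sequence bounded by `η` -/
lemma norm_window_le {c : ℕ → ℂ} {η : ℝ} (hη : 0 ≤ η) (hc : ∀ m, ‖c m‖ ≤ η) {n a b H : ℕ}
    (ha : n ≤ a) (hb : b ≤ n + H) : ‖∑ m ∈ Finset.Ioc a b, c m‖ ≤ H * η := by
  calc _ ≤ ∑ m ∈ Finset.Ioc a b, ‖c m‖ := norm_sum_le _ _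
    _ ≤ ∑ m ∈ Finset.Ioc a b, η := Finset.sum_le_sum fun m _ => hc m
    _ = ((b - a : ℕ) : ℝ) * η := by rw [Finset.sum_const, Nat.card_Ioc]; simp
    _ ≤ _ := by
        apply mul_le_mul_of_nonneg_right _ hη
        exact_mod_cast (show b - a ≤ H by omega)

theorem Good.approx {Φ : Set (ℕ → ℂ)}
    (h : ∀ η : ℝ, 0 < η → ∃ Ψ : Set (ℕ → ℂ), Good Ψ ∧
      ∀ c ∈ Φ, ∃ c' ∈ Ψ, ∀ m, ‖c m - c' m‖ ≤ η) : Good Φ := by
  intro ε hε
  obtain ⟨Ψ, hΨ, happ⟩ := h (ε / 4) (by positivity)
  obtain ⟨H₁, hH₁⟩ := hΨ (ε / 2) (by positivity)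
  refine ⟨max H₁ 3, fun N H hH hN c a b hc hab => ?_⟩
  have h3 : 3 ≤ N := le_trans (le_trans (le_max_right _ _) hH) hN
  have h' : ∀ n, ∃ c' : ℕ → ℂ, (c' = 0 ∨ c' ∈ Ψ) ∧ ∀ m, ‖c n m - c' m‖ ≤ ε / 4 := by
    intro n
    rcases hc n with h0 | h0
    · exact ⟨0, Or.inl rfl, fun m => by simp [h0]; positivity⟩
    · obtain ⟨c', h1, h2⟩ := happ (c n) h0
      exact ⟨c', Or.inr h1, h2⟩
  choose c' hc' hcc using h'
  have e1 := hH₁ N H (le_trans (le_max_left _ _) hH) hN c' a b hc' hab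
  have hlog := one_le_log h3
  calc ∑ n ∈ Finset.Icc 1 N, (1 / (n : ℝ)) * ‖∑ m ∈ Finset.Ioc (a n) (b n), c n m‖
      ≤ ∑ n ∈ Finset.Icc 1 N, ((1 / (n : ℝ)) * ‖∑ m ∈ Finset.Ioc (a n) (b n), c' n m‖ +
          (H * (ε / 4)) * (1 / (n : ℝ))) := by
        apply Finset.sum_le_sum
        intro n _
        have e2 : ‖∑ m ∈ Finset.Ioc (a n) (b n), c n m‖ ≤
            ‖∑ m ∈ Finset.Ioc (a n) (b n), c' n m‖ + H * (ε / 4) := by
          have e3 : ∑ m ∈ Finset.Ioc (a n) (b n), c n m =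
              ∑ m ∈ Finset.Ioc (a n) (b n), c' n m +
                ∑ m ∈ Finset.Ioc (a n) (b n), (c n m - c' n m) := by
            rw [← Finset.sum_add_distrib]
            exact Finset.sum_congr rfl fun m _ => by ring
          rw [e3]
          refine le_trans (norm_add_le _ _) (add_le_add le_rfl ?_)
          exact norm_window_le (c := fun m => c n m - c' n m) (by positivity) (hcc n)
            (hab n).1 (hab n).2
        calc _ ≤ (1 / (n : ℝ)) * (‖∑ m ∈ Finset.Ioc (a n) (b n), c' n m‖ + H * (ε / 4)) :=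
              mul_le_mul_of_nonneg_left e2 (by positivity)
          _ = _ := by ring
    _ = ∑ n ∈ Finset.Icc 1 N, (1 / (n : ℝ)) * ‖∑ m ∈ Finset.Ioc (a n) (b n), c' n m‖ +
        (H * (ε / 4)) * ∑ n ∈ Finset.Icc 1 N, (1 / (n : ℝ)) := by
        rw [Finset.sum_add_distrib, Finset.mul_sum]
    _ ≤ ε / 2 * H * Real.log N + (H * (ε / 4)) * (1 + Real.log N) :=
        add_le_add e1 (mul_le_mul_of_nonneg_left (harm_le N (by omega)) (by positivity))
    _ ≤ ε / 2 * H * Real.log N + (H * (ε / 4)) * (2 * Real.log N) := by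
        gcongr
        linarith
    _ = _ := by ring

/-- a prefix of a window splits into windows of length `H₁` -/
lemma prefix_split (c : ℕ → ℂ) (B : ℝ) (hB0 : 0 ≤ B) (hc : ∀ m, ‖c m‖ ≤ B) (n H₁ k r : ℕ)
    (hr : r ≤ H₁) :
    ‖∑ m ∈ Finset.Ioc n (n + k * H₁ + r), c m‖ ≤
      ∑ i ∈ Finset.range k, ‖∑ m ∈ Finset.Ioc (n + i * H₁) (n + i * H₁ + H₁), c m‖ + H₁ * B := by
  have h1 : ∑ m ∈ Finset.Ioc n (n + k * H₁), c m =
      ∑ i ∈ Finset.range k, ∑ m ∈ Finset.Ioc (n + i * H₁) (n + i * H₁ + H₁), c m := by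
    induction k with
    | zero => simp
    | succ k ih =>
      rw [Finset.sum_range_succ, ← ih, Nat.succ_mul, ← add_assoc]
      exact (Finset.sum_Ioc_consecutive _ (by omega) (by omega)).symm
  have h2 : ∑ m ∈ Finset.Ioc n (n + k * H₁ + r), c m =
      ∑ m ∈ Finset.Ioc n (n + k * H₁), c m +
        ∑ m ∈ Finset.Ioc (n + k * H₁) (n + k * H₁ + r), c m :=
    (Finset.sum_Ioc_consecutive _ (by omega) (by omega)).symm
  rw [h2, h1]
  refine le_trans (norm_add_le _ _) (add_le_add (norm_sum_le _ _) ?_)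
  exact norm_window_le hB0 hc le_rfl (by omega)

/-- From one scale (for each `ε`) and sparse `N` to all scales, all `N` and free sub-windows. -/
theorem good_of_weak (Φ : Set (ℕ → ℂ)) (B : ℝ) (hB0 : 0 ≤ B) (hB : ∀ c ∈ Φ, ∀ m, ‖c m‖ ≤ B)
    (𝒩 : Set ℕ) (C : ℕ) (h𝒩 : ∀ N : ℕ, 1 ≤ N → ∃ N' ∈ 𝒩, N ≤ N' ∧ N' ≤ N ^ C)
    (hA : ∀ ε : ℝ, 0 < ε → ∃ H : ℕ, 1 ≤ H ∧ ∃ N₀ : ℕ, ∀ N ∈ 𝒩, N₀ ≤ N →
      ∀ c : ℕ → ℕ → ℂ, (∀ n, c n = 0 ∨ c n ∈ Φ) →
      ∑ n ∈ Finset.Icc 1 N, (1 / (n : ℝ)) * ‖∑ m ∈ Finset.Ioc n (n + H), c n m‖ ≤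
        ε * H * Real.log N)
    (hT : ∀ ε : ℝ, 0 < ε → ∃ M₀ : ℕ, ∀ M : ℕ, M₀ ≤ M → ∀ c ∈ Φ,
      ‖∑ m ∈ Finset.Ioc 0 M, c m‖ ≤ ε * M) : Good Φ := by
  -- it suffices to treat prefixes of the windows
  have key : ∀ ε : ℝ, 0 < ε → ∃ H₀ : ℕ, ∀ N H : ℕ, H₀ ≤ H → H ≤ N →
      ∀ (c : ℕ → ℕ → ℂ) (b : ℕ → ℕ), (∀ n, c n = 0 ∨ c n ∈ Φ) →
      (∀ n, n ≤ b n ∧ b n ≤ n + H) →
      ∑ n ∈ Finset.Icc 1 N, (1 / (n : ℝ)) * ‖∑ m ∈ Finset.Ioc n (b n), c n m‖ ≤
        ε * H * Real.log N := by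
    intro ε hε
    obtain ⟨H₁, hH₁1, N₀, hN₀⟩ := hA (ε / (16 * (C + 1))) (by positivity)
    obtain ⟨M₀, hM₀⟩ := hT (ε / 32) (by positivity)
    obtain ⟨K₁, hK₁⟩ := exists_nat_ge (B * M₀ / (ε / 32))
    obtain ⟨K₂, hK₂⟩ := exists_nat_ge (16 * B * H₁ / ε)
    refine ⟨max (max (max M₀ N₀) 3) (max K₁ K₂), fun N H hH hN c b hc hb => ?_⟩
    have hHM : M₀ ≤ H := le_trans (le_trans (le_trans (le_max_left _ _) (le_max_left _ _))
      (le_max_left _ _)) hH
    have hHN : N₀ ≤ H := le_trans (le_trans (le_trans (le_max_right _ _) (le_max_left _ _))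
      (le_max_left _ _)) hH
    have hH3 : 3 ≤ H := le_trans (le_trans (le_max_right _ _) (le_max_left _ _)) hH
    have hHK₁ : K₁ ≤ H := le_trans (le_trans (le_max_left _ _) (le_max_right _ _)) hH
    have hHK₂ : K₂ ≤ H := le_trans (le_trans (le_max_right _ _) (le_max_right _ _)) hH
    have hHr : (3 : ℝ) ≤ H := by exact_mod_cast hH3
    have hHN' : (H : ℝ) ≤ N := by exact_mod_cast hN
    have hlogN := one_le_log (show 3 ≤ N by omega)
    have hcB : ∀ n m, ‖c n m‖ ≤ B := by
      intro n m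
      rcases hc n with h | h
      · simp [h, hB0]
      · exact hB _ h m
    -- initial segments
    have hinit : ∀ n M : ℕ, M ≤ 2 * H → ‖∑ m ∈ Finset.Ioc 0 M, c n m‖ ≤ ε / 16 * H := by
      intro n M hM
      rcases hc n with h | h
      · simp [h]; positivity
      · rcases le_or_gt M₀ M with h1 | h1
        · refine le_trans (hM₀ M h1 _ h) ?_
          have : (M : ℝ) ≤ 2 * H := by exact_mod_cast hM
          nlinarith
        · have h2 : ‖∑ m ∈ Finset.Ioc 0 M, c n m‖ ≤ (M₀ : ℝ) * B :=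
            norm_window_le hB0 (hcB n) le_rfl (by omega)
          have h3 : B * M₀ / (ε / 32) ≤ H := le_trans hK₁ (by exact_mod_cast hHK₁)
          rw [div_le_iff₀ (by positivity)] at h3
          nlinarith
    -- first range
    have hfirst : ∑ n ∈ Finset.Icc 1 H, (1 / (n : ℝ)) * ‖∑ m ∈ Finset.Ioc n (b n), c n m‖ ≤
        ε / 4 * H * Real.log N := by
      calc _ ≤ ∑ n ∈ Finset.Icc 1 H, (1 / (n : ℝ)) * (ε / 8 * H) := by
            apply Finset.sum_le_sum
            intro n hn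
            rw [Finset.mem_Icc] at hn
            apply mul_le_mul_of_nonneg_left _ (by positivity)
            have h1 : ∑ m ∈ Finset.Ioc n (b n), c n m =
                ∑ m ∈ Finset.Ioc 0 (b n), c n m - ∑ m ∈ Finset.Ioc 0 n, c n m := by
              rw [eq_sub_iff_add_eq, add_comm]
              exact Finset.sum_Ioc_consecutive _ (by omega) (hb n).1
            rw [h1]
            refine le_trans (norm_sub_le _ _) ?_
            have h2 := hinit n (b n) (by have := (hb n).2; omega)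
            have h3 := hinit n n (by omega)
            linarith
        _ = (ε / 8 * H) * ∑ n ∈ Finset.Icc 1 H, (1 / (n : ℝ)) := by
            rw [Finset.mul_sum]; exact Finset.sum_congr rfl fun n _ => by ring
        _ ≤ (ε / 8 * H) * (2 * Real.log N) := by
            apply mul_le_mul_of_nonneg_left _ (by positivity)
            have h1 := harm_le H (by omega)
            have h2 : Real.log H ≤ Real.log N := Real.log_le_log (by linarith) hHN'
            linarith
        _ = _ := by ring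
    -- second range
    set q := H / H₁ with hq
    have hqH : q * H₁ ≤ H := Nat.div_mul_le_self H H₁
    obtain ⟨N', hN'mem, hN'1, hN'2⟩ := h𝒩 (2 * N) (by omega)
    have hlogN' : Real.log N' ≤ 2 * C * Real.log N := by
      have h1 : Real.log N' ≤ C * Real.log (2 * N : ℕ) := by
        rw [← Real.log_pow]
        apply Real.log_le_log (by
          have : 0 < N' := by omega
          exact_mod_cast this)
        exact_mod_cast hN'2
      have h2 : Real.log (2 * N : ℕ) ≤ 2 * Real.log N := by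
        have h3 : (2 : ℝ) * Real.log N = Real.log ((N : ℝ) ^ 2) := by
          rw [Real.log_pow]; norm_num
        rw [h3]
        apply Real.log_le_log
        · have : 0 < 2 * N := by omega
          exact_mod_cast this
        · have : 2 * N ≤ N ^ 2 := by nlinarith
          exact_mod_cast this
      calc Real.log N' ≤ C * Real.log (2 * N : ℕ) := h1
        _ ≤ C * (2 * Real.log N) := mul_le_mul_of_nonneg_left h2 (by positivity)
        _ = _ := by ring
    have hinner : ∀ i ∈ Finset.range q,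
        ∑ n ∈ Finset.Ioc H N, (1 / (n : ℝ)) *
          ‖∑ m ∈ Finset.Ioc (n + i * H₁) (n + i * H₁ + H₁), c n m‖ ≤
        ε / 4 * H₁ * Real.log N := by
      intro i hi
      rw [Finset.mem_range] at hi
      have hiH : i * H₁ ≤ H := le_trans (Nat.mul_le_mul_right _ hi.le) hqH
      have h1 := hN₀ N' hN'mem (by omega) (fun m => c (m - i * H₁)) (fun m => hc _)
      calc _ ≤ ∑ n ∈ Finset.Ioc H N, 2 * ((1 / ((n + i * H₁ : ℕ) : ℝ)) *
            ‖∑ m ∈ Finset.Ioc (n + i * H₁) (n + i * H₁ + H₁), c (n + i * H₁ - i * H₁) m‖) := by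
            apply Finset.sum_le_sum
            intro n hn
            rw [Finset.mem_Ioc] at hn
            rw [Nat.add_sub_cancel, ← mul_assoc]
            apply mul_le_mul_of_nonneg_right _ (norm_nonneg _)
            rw [mul_one_div, div_le_div_iff₀ (by
              have : 0 < n := by omega
              exact_mod_cast this) (by
              have : 0 < n + i * H₁ := by omega
              exact_mod_cast this)]
            have : (n + i * H₁ : ℕ) ≤ 2 * n := by omega
            have h2 : ((n + i * H₁ : ℕ) : ℝ) ≤ 2 * n := by exact_mod_cast this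
            linarith
        _ = 2 * ∑ n ∈ (Finset.Ioc H N).image (fun n => n + i * H₁), (1 / (n : ℝ)) *
            ‖∑ m ∈ Finset.Ioc n (n + H₁), c (n - i * H₁) m‖ := by
            rw [Finset.sum_image (fun x _ y _ hxy => by simpa using hxy), Finset.mul_sum]
        _ ≤ 2 * ∑ n ∈ Finset.Icc 1 N', (1 / (n : ℝ)) *
            ‖∑ m ∈ Finset.Ioc n (n + H₁), c (n - i * H₁) m‖ := by
            apply mul_le_mul_of_nonneg_left _ (by norm_num)
            apply Finset.sum_le_sum_of_subset_of_nonneg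
            · intro m hm
              simp only [Finset.mem_image, Finset.mem_Ioc, Finset.mem_Icc] at hm ⊢
              obtain ⟨n, hn, rfl⟩ := hm
              omega
            · intro m _ _
              positivity
        _ ≤ 2 * (ε / (16 * (C + 1)) * H₁ * Real.log N') :=
            mul_le_mul_of_nonneg_left h1 (by norm_num)
        _ ≤ 2 * (ε / (16 * (C + 1)) * H₁ * (2 * C * Real.log N)) := by
            gcongr
        _ = (C / (C + 1)) * (ε / 4 * H₁ * Real.log N) := by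
            field_simp
            ring
        _ ≤ 1 * (ε / 4 * H₁ * Real.log N) := by
            apply mul_le_mul_of_nonneg_right _ (by positivity)
            rw [div_le_one (by positivity)]
            linarith
        _ = _ := one_mul _
    have hsecond : ∑ n ∈ Finset.Ioc H N, (1 / (n : ℝ)) * ‖∑ m ∈ Finset.Ioc n (b n), c n m‖ ≤
        ε / 4 * H * Real.log N + ε / 8 * H * Real.log N := by
      calc _ ≤ ∑ n ∈ Finset.Ioc H N, (1 / (n : ℝ)) *
            (∑ i ∈ Finset.range q, ‖∑ m ∈ Finset.Ioc (n + i * H₁) (n + i * H₁ + H₁), c n m‖ +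
              H₁ * B) := by
            apply Finset.sum_le_sum
            intro n _
            apply mul_le_mul_of_nonneg_left _ (by positivity)
            obtain ⟨d, hd⟩ : ∃ d, b n = n + d := ⟨b n - n, by have := (hb n).1; omega⟩
            have hdH : d ≤ H := by have := (hb n).2; omega
            have hd2 : d = d / H₁ * H₁ + d % H₁ := (Nat.div_add_mod' d H₁).symm
            have h1 : d / H₁ ≤ q := Nat.div_le_div_right hdH
            have h2 := prefix_split (c n) B hB0 (hcB n) n H₁ (d / H₁) (d % H₁)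
              (Nat.mod_lt _ (by omega)).le
            rw [hd, show n + d = n + d / H₁ * H₁ + d % H₁ by omega]
            refine le_trans h2 (add_le_add ?_ le_rfl)
            apply Finset.sum_le_sum_of_subset_of_nonneg
            · intro i hi
              rw [Finset.mem_range] at hi ⊢
              omega
            · intros; positivity
        _ = ∑ i ∈ Finset.range q, ∑ n ∈ Finset.Ioc H N, (1 / (n : ℝ)) *
              ‖∑ m ∈ Finset.Ioc (n + i * H₁) (n + i * H₁ + H₁), c n m‖ +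
            (H₁ * B) * ∑ n ∈ Finset.Ioc H N, (1 / (n : ℝ)) := by
            rw [Finset.sum_comm, Finset.mul_sum, ← Finset.sum_add_distrib]
            apply Finset.sum_congr rfl
            intro n _
            rw [mul_add, Finset.mul_sum]; ring
        _ ≤ ∑ i ∈ Finset.range q, ε / 4 * H₁ * Real.log N + (H₁ * B) * (2 * Real.log N) := by
            apply add_le_add (Finset.sum_le_sum hinner)
            apply mul_le_mul_of_nonneg_left _ (by positivity)
            calc ∑ n ∈ Finset.Ioc H N, (1 / (n : ℝ)) ≤ ∑ n ∈ Finset.Icc 1 N, (1 / (n : ℝ)) := by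
                  apply Finset.sum_le_sum_of_subset_of_nonneg
                  · intro m hm
                    simp only [Finset.mem_Ioc, Finset.mem_Icc] at hm ⊢
                    omega
                  · intros; positivity
              _ ≤ 1 + Real.log N := harm_le N (by omega)
              _ ≤ _ := by linarith
        _ ≤ _ := by
            rw [Finset.sum_const, Finset.card_range, nsmul_eq_mul]
            apply add_le_add
            · have h1 : (q : ℝ) * H₁ ≤ H := by exact_mod_cast hqH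
              calc (q : ℝ) * (ε / 4 * H₁ * Real.log N) = (ε / 4 * Real.log N) * (q * H₁) := by ring
                _ ≤ (ε / 4 * Real.log N) * H := mul_le_mul_of_nonneg_left h1 (by positivity)
                _ = _ := by ring
            · have h3 : 16 * B * H₁ / ε ≤ H := le_trans hK₂ (by exact_mod_cast hHK₂)
              rw [div_le_iff₀ hε] at h3
              nlinarith
    have hsplit : ∑ n ∈ Finset.Icc 1 N, (1 / (n : ℝ)) * ‖∑ m ∈ Finset.Ioc n (b n), c n m‖ =
        ∑ n ∈ Finset.Icc 1 H, (1 / (n : ℝ)) * ‖∑ m ∈ Finset.Ioc n (b n), c n m‖ +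
        ∑ n ∈ Finset.Ioc H N, (1 / (n : ℝ)) * ‖∑ m ∈ Finset.Ioc n (b n), c n m‖ := by
      rw [← Finset.sum_union]
      · apply Finset.sum_congr _ fun _ _ => rfl
        ext m
        simp only [Finset.mem_union, Finset.mem_Icc, Finset.mem_Ioc]
        omega
      · rw [Finset.disjoint_left]
        intro m hm hm'
        simp only [Finset.mem_Icc, Finset.mem_Ioc] at hm hm'
        omega
    rw [hsplit]
    have : 0 ≤ ε * H * Real.log N := by positivity
    linarith
  -- general sub-windows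
  intro ε hε
  obtain ⟨H₀, h₀⟩ := key (ε / 2) (by positivity)
  refine ⟨H₀, fun N H hH hN c a b hc hab => ?_⟩
  -- replace `a` and `b` by `max`/`min` values inside the window
  have e1 := h₀ N H hH hN c (fun n => min (a n) (n + H)) hc (fun n => by
    have := hab n; constructor
    · exact le_min this.1 (by omega)
    · exact min_le_right _ _)
  have e2 := h₀ N H hH hN c (fun n => max (b n) n) hc (fun n => by
    have := hab n; constructor
    · exact le_max_right _ _
    · exact max_le this.2 (by omega))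
  calc ∑ n ∈ Finset.Icc 1 N, (1 / (n : ℝ)) * ‖∑ m ∈ Finset.Ioc (a n) (b n), c n m‖
      ≤ ∑ n ∈ Finset.Icc 1 N,
          ((1 / (n : ℝ)) * ‖∑ m ∈ Finset.Ioc n (min (a n) (n + H)), c n m‖ +
          (1 / (n : ℝ)) * ‖∑ m ∈ Finset.Ioc n (max (b n) n), c n m‖) := by
        apply Finset.sum_le_sum
        intro n _
        rw [← mul_add]
        apply mul_le_mul_of_nonneg_left _ (by positivity)
        rcases le_or_gt (b n) (a n) with h1 | h1
        · rw [Finset.Ioc_eq_empty (by omega)]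
          simp only [Finset.sum_empty, norm_zero]
          positivity
        · have h2 := hab n
          rw [min_eq_left (by omega), max_eq_left (by omega)]
          have h3 : ∑ m ∈ Finset.Ioc (a n) (b n), c n m =
              ∑ m ∈ Finset.Ioc n (b n), c n m - ∑ m ∈ Finset.Ioc n (a n), c n m := by
            rw [eq_sub_iff_add_eq, add_comm]
            exact Finset.sum_Ioc_consecutive _ h2.1 (by omega)
          rw [h3, add_comm]
          exact norm_sub_le _ _
    _ = _ := Finset.sum_add_distrib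
    _ ≤ ε / 2 * H * Real.log N + ε / 2 * H * Real.log N := add_le_add e1 e2
    _ = _ := by ring

end Pool.Agent.MP663568h87
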