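import Mathlib

set_option autoImplicit false

namespace Pool.Agent.MP663568h87

open MeasureTheory intervalIntegral Complex

/-- Integral over a period of `F (m t) e(-j t)` vanishes unless `m` divides `j`. -/
lemma integral_zero_of_not_dvd (F : ℝ → ℂ) (hp : Function.Periodic F 1)
    (m : ℕ) (hm : 0 < m) (j : ℤ) (hj : ¬ (m : ℤ) ∣ j) :
    ∫ t in (0:ℝ)..1, F ((m : ℝ) * t) * Complex.exp (-(2 * Real.pi * I * j * t)) = 0 := by
  set G : ℝ → ℂ := fun t => F ((m : ℝ) * t) * Complex.exp (-(2 * Real.pi * I * j * t)) with hG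
  have hm' : (m : ℝ) ≠ 0 := by positivity
  have hmC : (m : ℂ) ≠ 0 := by exact_mod_cast hm.ne'
  have hGp : Function.Periodic G 1 := by
    intro t
    simp only [hG]
    have h1 : F ((m : ℝ) * (t + 1)) = F ((m : ℝ) * t) := by
      have := hp.nat_mul m ((m : ℝ) * t)
      rw [← this]; congr 1; ring
    rw [h1]
    congr 1
    have : (-(2 * Real.pi * I * j * ((t + 1 : ℝ) : ℂ))) =
        -(2 * Real.pi * I * j * t) + (-j : ℤ) * (2 * Real.pi * I) := by
      push_cast; ring
    rw [this, Complex.exp_add, Complex.exp_int_mul_two_pi_mul_I, mul_one]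
  have hshift : ∀ t, G (t + 1 / m) = Complex.exp (-(2 * Real.pi * I * j / m)) * G t := by
    intro t
    simp only [hG]
    have h1 : F ((m : ℝ) * (t + 1 / m)) = F ((m : ℝ) * t) := by
      have : (m : ℝ) * (t + 1 / m) = (m : ℝ) * t + 1 := by field_simp
      rw [this, hp]
    rw [h1]
    have : (-(2 * Real.pi * I * j * ((t + 1 / m : ℝ) : ℂ))) =
        -(2 * Real.pi * I * j / m) + -(2 * Real.pi * I * j * t) := by
      push_cast; field_simp; ring
    rw [this, Complex.exp_add]; ring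
  have e1 : ∫ t in (0:ℝ)..1, G (t + 1 / m) = ∫ t in (0:ℝ)..1, G t := by
    rw [intervalIntegral.integral_comp_add_right (fun t => G t)]
    have := hGp.intervalIntegral_add_eq (0 + 1 / (m:ℝ)) 0
    rw [zero_add] at this ⊢
    rw [add_comm (1:ℝ) (1 / (m:ℝ))]
    rw [this]; simp
  have e2 : ∫ t in (0:ℝ)..1, G (t + 1 / m) =
      Complex.exp (-(2 * Real.pi * I * j / m)) * ∫ t in (0:ℝ)..1, G t := by
    simp_rw [hshift]
    rw [intervalIntegral.integral_const_mul]
  have e3 : (1 - Complex.exp (-(2 * Real.pi * I * j / m))) * ∫ t in (0:ℝ)..1, G t = 0 := by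
    rw [sub_mul, one_mul, ← e2, e1, sub_self]
  rcases mul_eq_zero.mp e3 with h | h
  · exfalso
    have h' : Complex.exp (-(2 * Real.pi * I * j / m)) = 1 := by
      rw [sub_eq_zero] at h; exact h.symm
    rw [Complex.exp_eq_one_iff] at h'
    obtain ⟨n, hn⟩ := h'
    have h2 : (j : ℂ) = -(n : ℂ) * m := by
      have hpi : (2 * Real.pi * I : ℂ) ≠ 0 := Complex.two_pi_I_ne_zero
      have : (2 * Real.pi * I : ℂ) * (-(j : ℂ) / m) = (2 * Real.pi * I : ℂ) * n := by
        rw [mul_comm (2 * Real.pi * I : ℂ) (n : ℂ), ← hn]; ring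
      have := mul_left_cancel₀ hpi this
      field_simp at this
      linear_combination -this
    apply hj
    refine ⟨-n, ?_⟩
    have h3 : (j : ℂ) = ((m * -n : ℤ) : ℂ) := by
      rw [h2]; push_cast; ring
    exact_mod_cast h3
  · exact h

lemma integral_of_mul (F : ℝ → ℂ) (hc : Continuous F) (hp : Function.Periodic F 1)
    (m : ℕ) (hm : 0 < m) (k : ℤ) :
    ∫ t in (0:ℝ)..1, F ((m : ℝ) * t) * Complex.exp (-(2 * Real.pi * I * (k * m : ℤ) * t)) =
      ∫ s in (0:ℝ)..1, F s * Complex.exp (-(2 * Real.pi * I * k * s)) := by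
  have hm' : (m : ℝ) ≠ 0 := by positivity
  set G : ℝ → ℂ := fun s => F s * Complex.exp (-(2 * Real.pi * I * k * s)) with hG
  have hGc : Continuous G := by
    simp only [hG]; fun_prop
  have hGp : Function.Periodic G 1 := by
    intro t
    simp only [hG]
    rw [hp]
    congr 1
    have : (-(2 * Real.pi * I * k * ((t + 1 : ℝ) : ℂ))) =
        -(2 * Real.pi * I * k * t) + (-k : ℤ) * (2 * Real.pi * I) := by
      push_cast; ring
    rw [this, Complex.exp_add, Complex.exp_int_mul_two_pi_mul_I, mul_one]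
  have e : (fun t : ℝ => F ((m : ℝ) * t) * Complex.exp (-(2 * Real.pi * I * (k * m : ℤ) * t))) =
      fun t => G ((m : ℝ) * t) := by
    funext t; simp only [hG]; congr 2; push_cast; ring
  rw [e, intervalIntegral.integral_comp_mul_left (fun s => G s) hm']
  have h2 := hGp.intervalIntegral_add_zsmul_eq m 0 (fun _ _ => hGc.intervalIntegrable _ _)
  simp only [zero_add, zsmul_eq_mul, mul_one, Int.cast_natCast, mul_zero] at h2 ⊢
  rw [h2]
  rw [Complex.real_smul]
  push_cast
  rw [← mul_assoc, inv_mul_cancel₀ (by exact_mod_cast hm.ne'), one_mul]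

/-- Orthogonality in one window. -/
lemma inner_eq (F : ℝ → ℂ) (hc : Continuous F) (hp : Function.Periodic F 1) (k : ℤ) (hk : k ≠ 0)
    (n H : ℕ) (hn : k.natAbs * H ≤ n) (a : ℕ → ℝ) :
    ∫ t in (0:ℝ)..1, (∑ h ∈ Finset.Icc 1 H, F (((n + h : ℕ) : ℝ) * t) * (a (n + h) : ℂ)) *
      (∑ h ∈ Finset.Icc 1 H, Complex.exp (-(2 * Real.pi * I * (k * (n + h : ℕ) : ℤ) * t)) *
        (a (n + h) : ℂ)) =
    (∑ h ∈ Finset.Icc 1 H, ((a (n + h)) ^ 2 : ℝ) : ℝ) *
      ∫ s in (0:ℝ)..1, F s * Complex.exp (-(2 * Real.pi * I * k * s)) := by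
  set c := ∫ s in (0:ℝ)..1, F s * Complex.exp (-(2 * Real.pi * I * k * s)) with hcdef
  have key : ∀ h ∈ Finset.Icc 1 H, ∀ h' ∈ Finset.Icc 1 H,
      ∫ t in (0:ℝ)..1, (F (((n + h : ℕ) : ℝ) * t) * (a (n + h) : ℂ)) *
        (Complex.exp (-(2 * Real.pi * I * (k * (n + h' : ℕ) : ℤ) * t)) * (a (n + h') : ℂ)) =
      if h = h' then ((a (n + h)) ^ 2 : ℂ) * c else 0 := by
    intro h hh h' hh'
    rw [Finset.mem_Icc] at hh hh'
    have e : ∀ t : ℝ, (F (((n + h : ℕ) : ℝ) * t) * (a (n + h) : ℂ)) *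
        (Complex.exp (-(2 * Real.pi * I * (k * (n + h' : ℕ) : ℤ) * t)) * (a (n + h') : ℂ)) =
        ((a (n + h) : ℂ) * (a (n + h') : ℂ)) * (F (((n + h : ℕ) : ℝ) * t) *
        Complex.exp (-(2 * Real.pi * I * (k * (n + h' : ℕ) : ℤ) * t))) := by
      intro t; ring
    simp_rw [e]
    rw [intervalIntegral.integral_const_mul]
    split_ifs with hhh
    · subst hhh
      rw [integral_of_mul F hc hp (n + h) (by omega) k]
      rw [← hcdef]; ring
    · rw [integral_zero_of_not_dvd F hp (n + h) (by omega) _ ?_, mul_zero]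
      rintro ⟨q, hq⟩
      have h1 : ((n + h : ℕ) : ℤ) ∣ k * ((h' : ℤ) - h) := by
        refine ⟨q - k, ?_⟩
        push_cast at hq ⊢
        linear_combination hq
      have h2 : k * ((h' : ℤ) - h) ≠ 0 := by
        apply mul_ne_zero hk
        omega
      have h3 := Int.natAbs_le_of_dvd_ne_zero h1 h2
      have h4 : (k * ((h' : ℤ) - h)).natAbs ≤ k.natAbs * H := by
        rw [Int.natAbs_mul]
        apply Nat.mul_le_mul_left
        omega
      have h5 : ((n + h : ℕ) : ℤ).natAbs = n + h := Int.natAbs_natCast _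
      omega
  calc _ = ∫ t in (0:ℝ)..1, ∑ h ∈ Finset.Icc 1 H, ∑ h' ∈ Finset.Icc 1 H,
        (F (((n + h : ℕ) : ℝ) * t) * (a (n + h) : ℂ)) *
        (Complex.exp (-(2 * Real.pi * I * (k * (n + h' : ℕ) : ℤ) * t)) * (a (n + h') : ℂ)) := by
        congr 1; funext t; rw [Finset.sum_mul_sum]
    _ = ∑ h ∈ Finset.Icc 1 H, ∑ h' ∈ Finset.Icc 1 H, ∫ t in (0:ℝ)..1,
        (F (((n + h : ℕ) : ℝ) * t) * (a (n + h) : ℂ)) *
        (Complex.exp (-(2 * Real.pi * I * (k * (n + h' : ℕ) : ℤ) * t)) * (a (n + h') : ℂ)) := by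
        rw [intervalIntegral.integral_finsetSum]
        · apply Finset.sum_congr rfl
          intro h _
          rw [intervalIntegral.integral_finsetSum]
          intro h' _
          apply Continuous.intervalIntegrable; fun_prop
        · intro h _
          apply Continuous.intervalIntegrable; fun_prop
    _ = ∑ h ∈ Finset.Icc 1 H, ((a (n + h)) ^ 2 : ℂ) * c := by
        apply Finset.sum_congr rfl
        intro h hh
        rw [Finset.sum_congr rfl (key h hh)]
        simp [Finset.mem_Icc.mp hh]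
    _ = _ := by
        rw [← Finset.sum_mul]; push_cast; rfl

/-- In every window the supremum over the closed orbit is at least
`|k-th Fourier coefficient| * sqrt(sum a^2)`. -/
lemma window_lower (F : ℝ → ℂ) (hc : Continuous F) (hp : Function.Periodic F 1) (k : ℤ)
    (hk : k ≠ 0) (n H : ℕ) (hn : k.natAbs * H ≤ n) (a : ℕ → ℝ) (M : ℝ)
    (hM : ∀ t : ℝ, ‖∑ h ∈ Finset.Icc 1 H, F (((n + h : ℕ) : ℝ) * t) * (a (n + h) : ℂ)‖ ≤ M) :
    ‖∫ s in (0:ℝ)..1, F s * Complex.exp (-(2 * Real.pi * I * k * s))‖ *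
      √(∑ h ∈ Finset.Icc 1 H, (a (n + h)) ^ 2) ≤ M := by
  have hM0 : 0 ≤ M := le_trans (norm_nonneg _) (hM 0)
  set A := ∑ h ∈ Finset.Icc 1 H, (a (n + h)) ^ 2 with hA
  have hA0 : 0 ≤ A := Finset.sum_nonneg (fun _ _ => sq_nonneg _)
  rcases hA0.eq_or_lt with hA1 | hA1
  · rw [← hA1]; simpa using hM0
  set E : ℝ → ℂ := fun t => ∑ h ∈ Finset.Icc 1 H,
    Complex.exp (-(2 * Real.pi * I * (k * (n + h : ℕ) : ℤ) * t)) * (a (n + h) : ℂ) with hE
  have hEc : Continuous E := by simp only [hE]; fun_prop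
  set D : ℝ → ℂ := fun t => ∑ h ∈ Finset.Icc 1 H, F (((n + h : ℕ) : ℝ) * t) * (a (n + h) : ℂ)
    with hD
  have hDc : Continuous D := by simp only [hD]; fun_prop
  have h1 := inner_eq F hc hp k hk n H hn a
  have hF2p : Function.Periodic (fun t : ℝ => Complex.exp (2 * Real.pi * I * k * t)) 1 := by
    intro t
    have : ((2 * Real.pi * I * k * ((t + 1 : ℝ) : ℂ))) =
        (2 * Real.pi * I * k * t) + (k : ℤ) * (2 * Real.pi * I) := by
      push_cast; ring
    simp only
    rw [this, Complex.exp_add, Complex.exp_int_mul_two_pi_mul_I, mul_one]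
  have h2 := inner_eq (fun t : ℝ => Complex.exp (2 * Real.pi * I * k * t)) (by fun_prop) hF2p
    k hk n H hn a
  have h3 : (∫ s in (0:ℝ)..1, Complex.exp (2 * Real.pi * I * k * s) *
      Complex.exp (-(2 * Real.pi * I * k * s))) = 1 := by
    have : ∀ s : ℝ, Complex.exp (2 * Real.pi * I * k * s) *
      Complex.exp (-(2 * Real.pi * I * k * s)) = 1 := by
      intro s; rw [← Complex.exp_add]; simp
    simp_rw [this]; simp
  rw [h3, mul_one, ← hA] at h2
  have h4 : ∀ t : ℝ, (∑ h ∈ Finset.Icc 1 H,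
      Complex.exp (2 * Real.pi * I * k * ((((n + h : ℕ) : ℝ) * t : ℝ) : ℂ)) * (a (n + h) : ℂ)) =
      (starRingEnd ℂ) (E t) := by
    intro t
    simp only [hE, map_sum, map_mul, Complex.conj_ofReal]
    apply Finset.sum_congr rfl
    intro h _
    congr 1
    rw [← Complex.exp_conj]
    congr 1
    simp only [map_neg, map_mul, Complex.conj_I, Complex.conj_ofReal, map_ofNat, map_intCast]
    push_cast; ring
  have h5 : ∫ t in (0:ℝ)..1, ‖E t‖ ^ 2 = A := by
    have : ((∫ t in (0:ℝ)..1, ‖E t‖ ^ 2 : ℝ) : ℂ) = (A : ℂ) := by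
      rw [← intervalIntegral.integral_ofReal, ← h2]
      congr 1
      funext t
      have e5 : (∑ h ∈ Finset.Icc 1 H,
          Complex.exp (-(2 * Real.pi * I * (k * (n + h : ℕ) : ℤ) * t)) * (a (n + h) : ℂ)) = E t := rfl
      rw [h4 t, e5, mul_comm, Complex.mul_conj, Complex.normSq_eq_norm_sq]
    exact_mod_cast this
  have h6 : ∫ t in (0:ℝ)..1, ‖E t‖ ≤ √A := by
    have hs : 0 < √A := Real.sqrt_pos.mpr hA1
    have : ∫ t in (0:ℝ)..1, ‖E t‖ ≤ ∫ t in (0:ℝ)..1, (√A / 2 + ‖E t‖ ^ 2 * (1 / (2 * √A))) := by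
      apply intervalIntegral.integral_mono_on zero_le_one
      · exact hEc.norm.intervalIntegrable _ _
      · apply Continuous.intervalIntegrable; fun_prop
      · intro t _
        have : 0 ≤ (‖E t‖ - √A) ^ 2 := sq_nonneg _
        have h7 : √A / 2 + ‖E t‖ ^ 2 * (1 / (2 * √A)) - ‖E t‖ = (‖E t‖ - √A) ^ 2 / (2 * √A) := by
          field_simp; ring
        have : 0 ≤ (‖E t‖ - √A) ^ 2 / (2 * √A) := by positivity
        linarith
    refine le_trans this (le_of_eq ?_)
    rw [intervalIntegral.integral_add, intervalIntegral.integral_mul_const, h5]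
    · simp only [intervalIntegral.integral_const, sub_zero, one_smul]
      have : A = √A * √A := (Real.mul_self_sqrt hA0).symm
      field_simp
      nlinarith
    · exact continuous_const.intervalIntegrable _ _
    · apply Continuous.intervalIntegrable; fun_prop
  set c := ∫ s in (0:ℝ)..1, F s * Complex.exp (-(2 * Real.pi * I * k * s)) with hcdef
  have h8 : A * ‖c‖ ≤ M * √A := by
    calc A * ‖c‖ = ‖∫ t in (0:ℝ)..1, D t * E t‖ := by
          rw [h1, norm_mul, ← hA]
          simp [abs_of_nonneg hA0]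
      _ ≤ ∫ t in (0:ℝ)..1, ‖D t * E t‖ :=
          intervalIntegral.norm_integral_le_integral_norm zero_le_one
      _ ≤ ∫ t in (0:ℝ)..1, M * ‖E t‖ := by
          apply intervalIntegral.integral_mono_on zero_le_one
          · apply Continuous.intervalIntegrable; fun_prop
          · apply Continuous.intervalIntegrable; fun_prop
          · intro t _
            rw [norm_mul]
            exact mul_le_mul_of_nonneg_right (hM t) (norm_nonneg _)
      _ = M * ∫ t in (0:ℝ)..1, ‖E t‖ := by rw [intervalIntegral.integral_const_mul]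
      _ ≤ M * √A := mul_le_mul_of_nonneg_left h6 hM0
  have hs : 0 < √A := Real.sqrt_pos.mpr hA1
  have : A = √A * √A := (Real.mul_self_sqrt hA0).symm
  have h9 : (‖c‖ * √A) * √A ≤ M * √A := by
    calc (‖c‖ * √A) * √A = A * ‖c‖ := by rw [mul_assoc, ← this]; ring
      _ ≤ _ := h8
  exact le_of_mul_le_mul_right h9 hs

end Pool.Agent.MP663568h87
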