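import Pool.Agent.Lib.MP_663568_nt_h87.Lower2
import Pool.Agent.Lib.MP_663568_nt_h87.Defs

set_option autoImplicit false
open scoped Manifold

namespace Pool.Agent.MP663568h87

open MeasureTheory intervalIntegral Complex ArithmeticFunction

/-- Local Lipschitz continuity in charts implies continuity on the quotient. -/
lemma continuous_of_chartLipschitz
    (E : Type) [NormedAddCommGroup E] [NormedSpace ℝ E]
    (G : Type) [Group G] [TopologicalSpace G] [ChartedSpace E G]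
    (Γ : Subgroup G) (f : G ⧸ Γ → ℂ)
    (hf : ∀ y : G, ∃ K : NNReal, ∃ U ∈ nhds (extChartAt 𝓘(ℝ, E) y y),
        LipschitzOnWith K
          (fun v : E => f (QuotientGroup.mk ((extChartAt 𝓘(ℝ, E) y).symm v) : G ⧸ Γ)) U) :
    Continuous f := by
  have h1 : Continuous (fun g : G => f (QuotientGroup.mk g : G ⧸ Γ)) := by
    rw [continuous_iff_continuousAt]
    intro y
    obtain ⟨K, U, hU, hL⟩ := hf y
    have h2 : ContinuousAt (fun v : E =>
        f (QuotientGroup.mk ((extChartAt 𝓘(ℝ, E) y).symm v) : G ⧸ Γ))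
        (extChartAt 𝓘(ℝ, E) y y) := hL.continuousOn.continuousAt hU
    have h3 : ContinuousAt (extChartAt 𝓘(ℝ, E) y) y := continuousAt_extChartAt y
    have h4 := ContinuousAt.comp (f := extChartAt 𝓘(ℝ, E) y) (x := y) h2 h3
    refine h4.congr ?_
    have h5 : (extChartAt 𝓘(ℝ, E) y).source ∈ nhds y := extChartAt_source_mem_nhds y
    filter_upwards [h5] with g hg
    simp only [Function.comp]
    rw [(extChartAt 𝓘(ℝ, E) y).left_inv hg]
  exact continuous_coinduced_dom.mpr h1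

lemma hom_pow {G : Type} [Group G] (φ : ℝ → G) (hφ : ∀ s t, φ (s + t) = φ s * φ t) (t : ℝ) (m : ℕ) :
    φ ((m : ℝ) * t) = φ t ^ m := by
  induction m with
  | zero =>
    have h0 : φ 0 = 1 := by
      have := hφ 0 0
      rw [add_zero] at this
      exact (mul_eq_left.mp this.symm)
    simp [h0]
  | succ m ih =>
    push_cast
    rw [add_mul, one_mul, hφ, ih, pow_succ]

lemma sup_bdd {G : Type} [Group G] (Γ : Subgroup G) (f : G ⧸ Γ → ℂ) (x₀ : G) (B : ℝ)
    (hB : ∀ x, ‖f x‖ ≤ B) (n H : ℕ) (g : G) :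
    ‖∑ h ∈ Finset.Icc 1 H,
            f (QuotientGroup.mk (g ^ (h + n) * x₀) : G ⧸ Γ) *
              ((ArithmeticFunction.moebius (n + h) : ℤ) : ℂ)‖ ≤ H * B := by
  calc _ ≤ ∑ h ∈ Finset.Icc 1 H, ‖f (QuotientGroup.mk (g ^ (h + n) * x₀) : G ⧸ Γ) *
              ((ArithmeticFunction.moebius (n + h) : ℤ) : ℂ)‖ := norm_sum_le _ _
    _ ≤ ∑ h ∈ Finset.Icc 1 H, B := by
        apply Finset.sum_le_sum
        intro h _
        rw [norm_mul]
        have h1 : ‖((ArithmeticFunction.moebius (n + h) : ℤ) : ℂ)‖ ≤ 1 := by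
          rw [Complex.norm_intCast]
          have := abs_moebius_le_one (n := n + h)
          exact_mod_cast this
        calc _ ≤ B * 1 := mul_le_mul (hB _) h1 (norm_nonneg _) (le_trans (norm_nonneg _) (hB (QuotientGroup.mk x₀)))
          _ = B := mul_one B
    _ = H * B := by rw [Finset.sum_const, Nat.card_Icc]; simp

theorem sqrt_lower {G : Type} [Group G] [TopologicalSpace G] [IsTopologicalGroup G]
    (Γ : Subgroup G) (f : G ⧸ Γ → ℂ) (x₀ : G) (hfc : Continuous f) (B : ℝ)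
    (hB : ∀ x, ‖f x‖ ≤ B) (φ : ℝ → G) (hφc : Continuous φ)
    (hφ : ∀ s t, φ (s + t) = φ s * φ t)
    (hφ1 : (QuotientGroup.mk (φ 1 * x₀) : G ⧸ Γ) = QuotientGroup.mk x₀)
    (hne : ∃ s, f (QuotientGroup.mk (φ s * x₀) : G ⧸ Γ) ≠ f (QuotientGroup.mk x₀ : G ⧸ Γ)) :
    ∃ c C : ℝ, 0 < c ∧ ∀ H N : ℕ, 1 ≤ H → C * (H : ℝ) ^ 2 ≤ N →
      c * √(H : ℝ) * Real.log N ≤ S Γ f x₀ N H := by
  have hφ0 : φ 0 = 1 := by
    have := hφ 0 0
    rw [add_zero] at this
    exact (mul_eq_left.mp this.symm)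
  set F : ℝ → ℂ := fun s => f (QuotientGroup.mk (φ s * x₀) : G ⧸ Γ) with hF
  have hFc : Continuous F := by
    simp only [hF]
    exact hfc.comp (QuotientGroup.continuous_mk.comp (hφc.mul continuous_const))
  have hFp : Function.Periodic F 1 := by
    intro s
    simp only [hF]
    congr 1
    rw [hφ, QuotientGroup.eq]
    rw [QuotientGroup.eq] at hφ1
    have : (φ s * φ 1 * x₀)⁻¹ * (φ s * x₀) = (φ 1 * x₀)⁻¹ * x₀ := by group
    rw [this]; exact hφ1
  obtain ⟨k, hk, hck⟩ := exists_coeff F hFc hFp (by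
    obtain ⟨s, hs⟩ := hne
    refine ⟨s, ?_⟩
    simp only [hF, hφ0, one_mul]
    exact hs)
  set ck := ∫ s in (0:ℝ)..1, F s * Complex.exp (-(2 * Real.pi * I * k * s)) with hckdef
  have hc0 : 0 < ‖ck‖ := norm_pos_iff.mpr hck
  set κ : ℝ := (k.natAbs : ℝ) + 1 with hκ
  have hκ1 : 1 ≤ κ := by simp [hκ]
  refine ⟨‖ck‖ / 10, Real.exp (2 * (1 + Real.log κ)), by positivity, ?_⟩
  intro H N hH hN
  have hHr : (1 : ℝ) ≤ H := by exact_mod_cast hH
  have hHs : 0 < √(H : ℝ) := Real.sqrt_pos.mpr (by linarith)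
  have hHss : √(H : ℝ) * √(H : ℝ) = H := Real.mul_self_sqrt (by linarith)
  -- window bound
  have hwin : ∀ n : ℕ, k.natAbs * H ≤ n →
      ‖ck‖ * ((∑ h ∈ Finset.Icc 1 H, ((moebius (n + h) : ℤ) : ℝ) ^ 2) / √(H : ℝ)) ≤
      ⨆ g : G, ‖∑ h ∈ Finset.Icc 1 H,
            f (QuotientGroup.mk (g ^ (h + n) * x₀) : G ⧸ Γ) *
              ((ArithmeticFunction.moebius (n + h) : ℤ) : ℂ)‖ := by
    intro n hn
    have hbdd : BddAbove (Set.range fun g : G => ‖∑ h ∈ Finset.Icc 1 H,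
            f (QuotientGroup.mk (g ^ (h + n) * x₀) : G ⧸ Γ) *
              ((ArithmeticFunction.moebius (n + h) : ℤ) : ℂ)‖) :=
      ⟨H * B, by rintro _ ⟨g, rfl⟩; exact sup_bdd Γ f x₀ B hB n H g⟩
    have h1 := window_lower F hFc hFp k hk n H hn (fun m => ((moebius m : ℤ) : ℝ)) _ (fun t => by
      refine le_trans (le_of_eq ?_) (le_ciSup hbdd (φ t))
      congr 1
      apply Finset.sum_congr rfl
      intro h _
      simp only [hF]
      rw [← hom_pow φ hφ, add_comm h n]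
      push_cast
      rfl)
    refine le_trans (mul_le_mul_of_nonneg_left ?_ hc0.le) h1
    set Q := ∑ h ∈ Finset.Icc 1 H, ((moebius (n + h) : ℤ) : ℝ) ^ 2 with hQ
    have hQ0 : 0 ≤ Q := Finset.sum_nonneg (fun _ _ => sq_nonneg _)
    have hQH : Q ≤ H := by
      calc Q ≤ ∑ h ∈ Finset.Icc 1 H, (1 : ℝ) := by
            apply Finset.sum_le_sum
            intro h _
            have := abs_moebius_le_one (n := n + h)
            have h7 : |((moebius (n + h) : ℤ) : ℝ)| ≤ 1 := by exact_mod_cast this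
            rw [← sq_abs]
            nlinarith [abs_nonneg ((moebius (n + h) : ℤ) : ℝ)]
        _ = H := by rw [Finset.sum_const, Nat.card_Icc]; simp
    rw [div_le_iff₀ hHs]
    calc Q = √Q * √Q := (Real.mul_self_sqrt hQ0).symm
      _ ≤ √Q * √(H : ℝ) := mul_le_mul_of_nonneg_left (Real.sqrt_le_sqrt hQH) (Real.sqrt_nonneg _)
  have hsup0 : ∀ n : ℕ, 0 ≤ ⨆ g : G, ‖∑ h ∈ Finset.Icc 1 H,
            f (QuotientGroup.mk (g ^ (h + n) * x₀) : G ⧸ Γ) *
              ((ArithmeticFunction.moebius (n + h) : ℤ) : ℂ)‖ :=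
    fun n => Real.iSup_nonneg (fun _ => norm_nonneg _)
  have hS1 : ‖ck‖ / √(H : ℝ) * (H * ((6 / Real.pi ^ 2) * Real.log N -
      (1 + Real.log ((k.natAbs * H : ℕ) + H)))) ≤ S Γ f x₀ N H := by
    calc _ ≤ ‖ck‖ / √(H : ℝ) * ∑ n ∈ (Finset.Icc 1 N).filter (fun n => k.natAbs * H ≤ n),
          (1 / (n:ℝ)) * ∑ h ∈ Finset.Icc 1 H, ((moebius (n + h) : ℤ) : ℝ) ^ 2 :=
          mul_le_mul_of_nonneg_left (avg_lower (k.natAbs * H) H N hH) (by positivity)
      _ ≤ ∑ n ∈ (Finset.Icc 1 N).filter (fun n => k.natAbs * H ≤ n),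
          (1 / (n:ℝ)) * ⨆ g : G, ‖∑ h ∈ Finset.Icc 1 H,
            f (QuotientGroup.mk (g ^ (h + n) * x₀) : G ⧸ Γ) *
              ((ArithmeticFunction.moebius (n + h) : ℤ) : ℂ)‖ := by
          rw [Finset.mul_sum]
          apply Finset.sum_le_sum
          intro n hn
          rw [Finset.mem_filter] at hn
          have := hwin n hn.2
          calc _ = (1 / (n:ℝ)) * (‖ck‖ * ((∑ h ∈ Finset.Icc 1 H,
                ((moebius (n + h) : ℤ) : ℝ) ^ 2) / √(H : ℝ))) := by ring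
            _ ≤ _ := mul_le_mul_of_nonneg_left this (by positivity)
      _ ≤ S Γ f x₀ N H := by
          apply Finset.sum_le_sum_of_subset_of_nonneg (Finset.filter_subset _ _)
          intro n _ _
          exact mul_nonneg (by positivity) (hsup0 n)
  have hN1 : (1 : ℝ) ≤ N := by
    refine le_trans ?_ hN
    have : (1 : ℝ) ≤ Real.exp (2 * (1 + Real.log κ)) := by
      apply Real.one_le_exp
      have := Real.log_nonneg hκ1
      linarith
    nlinarith
  have hlogN : 2 * (1 + Real.log κ) + 2 * Real.log H ≤ Real.log N := by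
    have h1 : Real.exp (2 * (1 + Real.log κ) + 2 * Real.log H) ≤ N := by
      rw [Real.exp_add]
      have : Real.exp (2 * Real.log H) = (H : ℝ) ^ 2 := by
        rw [mul_comm, Real.exp_mul, Real.exp_log (by linarith)]
        norm_cast
      rw [this]; exact hN
    calc _ = Real.log (Real.exp (2 * (1 + Real.log κ) + 2 * Real.log H)) := by rw [Real.log_exp]
      _ ≤ _ := Real.log_le_log (Real.exp_pos _) h1
  have hlogK : Real.log (((k.natAbs * H : ℕ) : ℝ) + H) = Real.log κ + Real.log H := by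
    rw [← Real.log_mul (by positivity) (by positivity)]
    congr 1
    push_cast
    rw [hκ]; push_cast; ring
  have hpi : (3 / 5 : ℝ) ≤ 6 / Real.pi ^ 2 := by
    rw [le_div_iff₀ (by positivity)]
    have h1 := Real.pi_lt_d2
    have h2 := Real.pi_pos
    nlinarith
  have hfin : Real.log N / 10 ≤ (6 / Real.pi ^ 2) * Real.log N -
      (1 + Real.log ((k.natAbs * H : ℕ) + H)) := by
    rw [hlogK]
    have h0 : 0 ≤ Real.log N := Real.log_nonneg hN1
    nlinarith [mul_le_mul_of_nonneg_right hpi h0]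
  refine le_trans ?_ hS1
  have e1 : ‖ck‖ / √(H : ℝ) * (H * ((6 / Real.pi ^ 2) * Real.log N -
      (1 + Real.log ((k.natAbs * H : ℕ) + H)))) = ‖ck‖ * √(H : ℝ) *
      ((6 / Real.pi ^ 2) * Real.log N - (1 + Real.log ((k.natAbs * H : ℕ) + H))) := by
    have : (H : ℝ) / √(H : ℝ) = √(H : ℝ) := Real.div_sqrt
    calc _ = ‖ck‖ * ((H : ℝ) / √(H : ℝ)) * ((6 / Real.pi ^ 2) * Real.log N -
      (1 + Real.log ((k.natAbs * H : ℕ) + H))) := by ring
      _ = _ := by rw [this]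
  rw [e1]
  calc ‖ck‖ / 10 * √(H : ℝ) * Real.log N = ‖ck‖ * √(H : ℝ) * (Real.log N / 10) := by ring
    _ ≤ _ := mul_le_mul_of_nonneg_left hfin (by positivity)

theorem sqrt_lower_nil :
    ∀ (E : Type) [NormedAddCommGroup E] [NormedSpace ℝ E] [FiniteDimensional ℝ E]
      (G : Type) [Group G] [TopologicalSpace G] [ChartedSpace E G]
      [LieGroup 𝓘(ℝ, E) ((⊤ : ℕ∞) : WithTop ℕ∞) G]
      [SimplyConnectedSpace G] [Group.IsNilpotent G]
      (Γ : Subgroup G) [DiscreteTopology Γ] [CompactSpace (G ⧸ Γ)]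
      (f : G ⧸ Γ → ℂ) (x₀ : G),
      (∀ y : G, ∃ K : NNReal, ∃ U ∈ nhds (extChartAt 𝓘(ℝ, E) y y),
        LipschitzOnWith K
          (fun v : E => f (QuotientGroup.mk ((extChartAt 𝓘(ℝ, E) y).symm v) : G ⧸ Γ)) U) →
      ∀ φ : ℝ → G, Continuous φ → (∀ s t, φ (s + t) = φ s * φ t) →
        (QuotientGroup.mk (φ 1 * x₀) : G ⧸ Γ) = QuotientGroup.mk x₀ →
        (∃ s, f (QuotientGroup.mk (φ s * x₀) : G ⧸ Γ) ≠ f (QuotientGroup.mk x₀ : G ⧸ Γ)) →
      ∃ c C : ℝ, 0 < c ∧ ∀ H N : ℕ, 1 ≤ H → C * (H : ℝ) ^ 2 ≤ N →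
        c * √(H : ℝ) * Real.log N ≤
        ∑ n ∈ Finset.Icc 1 N, (1 / (n : ℝ)) *
          ⨆ g : G, ‖∑ h ∈ Finset.Icc 1 H,
            f (QuotientGroup.mk (g ^ (h + n) * x₀) : G ⧸ Γ) *
              ((ArithmeticFunction.moebius (n + h) : ℤ) : ℂ)‖ := by
  intro E _ _ _ G _ _ _ _ _ _ Γ _ _ f x₀ hf φ hφc hφ hφ1 hne
  have : IsTopologicalGroup G := topologicalGroup_of_lieGroup 𝓘(ℝ, E) ((⊤ : ℕ∞) : WithTop ℕ∞)
  have hfc := continuous_of_chartLipschitz E G Γ f hf
  obtain ⟨B, hB⟩ : ∃ B, ∀ x, ‖f x‖ ≤ B := by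
    obtain ⟨B, hB⟩ := (isCompact_univ (X := G ⧸ Γ)).exists_bound_of_continuousOn hfc.continuousOn
    exact ⟨B, fun x => hB x (Set.mem_univ x)⟩
  exact sqrt_lower Γ f x₀ hfc B hB φ hφc hφ hφ1 hne

end Pool.Agent.MP663568h87
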