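import Pool.Agent.Lib.MP_663568_nt_h87.Lower3

set_option autoImplicit false
open scoped Manifold

namespace Pool.Agent.MP663568h87

open ArithmeticFunction

/-- The windowed supremum. -/
noncomputable def W {G : Type} [Group G] (Γ : Subgroup G) (f : G ⧸ Γ → ℂ) (x₀ : G)
    (H n : ℕ) : ℝ :=
  ⨆ g : G, ‖∑ h ∈ Finset.Icc 1 H,
            f (QuotientGroup.mk (g ^ (h + n) * x₀) : G ⧸ Γ) *
              ((ArithmeticFunction.moebius (n + h) : ℤ) : ℂ)‖

section
variable {G : Type} [Group G] (Γ : Subgroup G) (f : G ⧸ Γ → ℂ) (x₀ : G) (B : ℝ)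
    (hB : ∀ x, ‖f x‖ ≤ B)
include hB

lemma W_bdd (H n : ℕ) : BddAbove (Set.range fun g : G => ‖∑ h ∈ Finset.Icc 1 H,
            f (QuotientGroup.mk (g ^ (h + n) * x₀) : G ⧸ Γ) *
              ((ArithmeticFunction.moebius (n + h) : ℤ) : ℂ)‖) :=
  ⟨H * B, by rintro _ ⟨g, rfl⟩; exact sup_bdd Γ f x₀ B hB n H g⟩

omit hB in
lemma W_nonneg (H n : ℕ) : 0 ≤ W Γ f x₀ H n := Real.iSup_nonneg (fun _ => norm_nonneg _)

lemma W_le (H n : ℕ) : W Γ f x₀ H n ≤ H * B :=
  ciSup_le (fun g => sup_bdd Γ f x₀ B hB n H g)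

lemma W_add (H₁ H₂ n : ℕ) : W Γ f x₀ (H₁ + H₂) n ≤ W Γ f x₀ H₁ n + W Γ f x₀ H₂ (n + H₁) := by
  apply ciSup_le
  intro g
  have e : ∑ h ∈ Finset.Icc 1 (H₁ + H₂), f (QuotientGroup.mk (g ^ (h + n) * x₀) : G ⧸ Γ) *
              ((ArithmeticFunction.moebius (n + h) : ℤ) : ℂ) =
      (∑ h ∈ Finset.Icc 1 H₁, f (QuotientGroup.mk (g ^ (h + n) * x₀) : G ⧸ Γ) *
              ((ArithmeticFunction.moebius (n + h) : ℤ) : ℂ)) +
      ∑ h ∈ Finset.Icc 1 H₂, f (QuotientGroup.mk (g ^ (h + (n + H₁)) * x₀) : G ⧸ Γ) *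
              ((ArithmeticFunction.moebius ((n + H₁) + h) : ℤ) : ℂ) := by
    have h1 : Finset.Icc 1 (H₁ + H₂) = Finset.Icc 1 H₁ ∪ (Finset.Icc 1 H₂).image (fun h => h + H₁) := by
      ext m
      simp only [Finset.mem_union, Finset.mem_Icc, Finset.mem_image]
      constructor
      · intro hm
        by_cases h : m ≤ H₁
        · left; omega
        · right; exact ⟨m - H₁, by omega, by omega⟩
      · rintro (h | ⟨a, ha, rfl⟩) <;> omega
    rw [h1, Finset.sum_union, Finset.sum_image (fun x _ y _ hxy => by simpa using hxy)]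
    · congr 1
      apply Finset.sum_congr rfl
      intro h _
      rw [show h + H₁ + n = h + (n + H₁) by ring, show n + (h + H₁) = (n + H₁) + h by ring]
    · rw [Finset.disjoint_left]
      intro m hm hm'
      simp only [Finset.mem_Icc, Finset.mem_image] at hm hm'
      obtain ⟨a, ha, rfl⟩ := hm'
      omega
  rw [e]
  refine le_trans (norm_add_le _ _) (add_le_add ?_ ?_)
  · exact le_ciSup (W_bdd Γ f x₀ B hB H₁ n) g
  · exact le_ciSup (W_bdd Γ f x₀ B hB H₂ (n + H₁)) g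

lemma W_mul (H' q n : ℕ) : W Γ f x₀ (q * H') n ≤
    ∑ i ∈ Finset.range q, W Γ f x₀ H' (n + i * H') := by
  induction q with
  | zero =>
    simp only [zero_mul, Finset.range_zero, Finset.sum_empty]
    have := W_le Γ f x₀ B hB 0 n
    simpa using this
  | succ q ih =>
    rw [Finset.sum_range_succ, Nat.succ_mul]
    refine le_trans (W_add Γ f x₀ B hB _ _ _) ?_
    exact add_le_add ih le_rfl

omit hB in
lemma S_eq (N H : ℕ) : S Γ f x₀ N H = ∑ n ∈ Finset.Icc 1 N, (1 / (n : ℝ)) * W Γ f x₀ H n := rfl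

omit f Γ x₀ hB B in
/-- Shifting the argument changes a logarithmic average by at most `2 M (1 + log j)`. -/
lemma shift (w : ℕ → ℝ) (M : ℝ) (hw0 : ∀ n, 0 ≤ w n) (hwM : ∀ n, w n ≤ M) (N j H : ℕ)
    (hj : j ≤ H) (hH : 1 ≤ H) :
    ∑ n ∈ Finset.Icc 1 N, (1 / (n : ℝ)) * w (n + j) ≤
      ∑ n ∈ Finset.Icc 1 N, (1 / (n : ℝ)) * w n + 2 * M * (1 + Real.log H) := by
  have hM0 : 0 ≤ M := le_trans (hw0 0) (hwM 0)
  have hL : ∑ m ∈ Finset.Icc 1 j, (1 : ℝ) / m ≤ 1 + Real.log H := by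
    calc _ ≤ ∑ m ∈ Finset.Icc 1 H, (1 : ℝ) / m := by
          apply Finset.sum_le_sum_of_subset_of_nonneg
          · exact Finset.Icc_subset_Icc_right hj
          · intros; positivity
      _ ≤ _ := harm_le H hH
  -- sum over n of 1/(n+j)
  have e1 : ∀ (v : ℕ → ℝ), ∑ n ∈ Finset.Icc 1 N, v (n + j) = ∑ m ∈ Finset.Icc (1 + j) (N + j), v m := by
    intro v
    rw [← Finset.map_add_right_Icc, Finset.sum_map]
    rfl
  -- first error
  have h1 : ∑ n ∈ Finset.Icc 1 N, (1 / (n : ℝ)) * w (n + j) ≤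
      ∑ n ∈ Finset.Icc 1 N, (1 / ((n + j : ℕ) : ℝ)) * w (n + j) +
      M * ∑ n ∈ Finset.Icc 1 N, (1 / (n : ℝ) - 1 / ((n + j : ℕ) : ℝ)) := by
    rw [Finset.mul_sum, ← Finset.sum_add_distrib]
    apply Finset.sum_le_sum
    intro n hn
    rw [Finset.mem_Icc] at hn
    have h2 : 0 ≤ 1 / (n : ℝ) - 1 / ((n + j : ℕ) : ℝ) := by
      rw [sub_nonneg]
      apply one_div_le_one_div_of_le
      · exact_mod_cast hn.1
      · push_cast; linarith [show (0:ℝ) ≤ j from Nat.cast_nonneg j]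
    nlinarith [hwM (n + j), mul_le_mul_of_nonneg_left (hwM (n + j)) h2]
  have h2 : ∑ n ∈ Finset.Icc 1 N, (1 / (n : ℝ) - 1 / ((n + j : ℕ) : ℝ)) ≤
      ∑ m ∈ Finset.Icc 1 j, (1 : ℝ) / m := by
    rw [Finset.sum_sub_distrib, e1 (fun m => 1 / (m : ℝ)), sub_le_iff_le_add]
    calc ∑ n ∈ Finset.Icc 1 N, 1 / (n : ℝ) ≤ ∑ n ∈ Finset.Icc 1 j ∪ Finset.Icc (1 + j) (N + j), 1 / (n : ℝ) := by
          apply Finset.sum_le_sum_of_subset_of_nonneg
          · intro m hm
            simp only [Finset.mem_union, Finset.mem_Icc] at hm ⊢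
            omega
          · intros; positivity
      _ ≤ _ := by
          rw [← Finset.sum_union_inter]
          have : 0 ≤ ∑ n ∈ Finset.Icc 1 j ∩ Finset.Icc (1 + j) (N + j), 1 / (n : ℝ) :=
            Finset.sum_nonneg (fun _ _ => by positivity)
          linarith
  have h3 : ∑ n ∈ Finset.Icc 1 N, (1 / ((n + j : ℕ) : ℝ)) * w (n + j) ≤
      ∑ n ∈ Finset.Icc 1 N, (1 / (n : ℝ)) * w n + M * ∑ m ∈ Finset.Icc 1 j, (1 : ℝ) / m := by
    rw [e1 (fun m => (1 / (m : ℝ)) * w m)]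
    calc ∑ m ∈ Finset.Icc (1 + j) (N + j), (1 / (m : ℝ)) * w m
        ≤ ∑ m ∈ Finset.Icc 1 N ∪ (Finset.Icc 1 j).image (fun i => N + i), (1 / (m : ℝ)) * w m := by
          apply Finset.sum_le_sum_of_subset_of_nonneg
          · intro m hm
            simp only [Finset.mem_union, Finset.mem_Icc, Finset.mem_image] at hm ⊢
            by_cases h : m ≤ N
            · left; omega
            · right; exact ⟨m - N, by omega, by omega⟩
          · intro m _ _
            exact mul_nonneg (by positivity) (hw0 m)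
      _ ≤ ∑ n ∈ Finset.Icc 1 N, (1 / (n : ℝ)) * w n +
          ∑ m ∈ (Finset.Icc 1 j).image (fun i => N + i), (1 / (m : ℝ)) * w m := by
          rw [← Finset.sum_union_inter]
          have : 0 ≤ ∑ m ∈ Finset.Icc 1 N ∩ (Finset.Icc 1 j).image (fun i => N + i),
              (1 / (m : ℝ)) * w m :=
            Finset.sum_nonneg (fun m _ => mul_nonneg (by positivity) (hw0 m))
          linarith
      _ ≤ _ := by
          gcongr
          rw [Finset.sum_image (fun x _ y _ hxy => by simpa using hxy), Finset.mul_sum]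
          apply Finset.sum_le_sum
          intro i hi
          rw [Finset.mem_Icc] at hi
          have h4 : 1 / ((N + i : ℕ) : ℝ) ≤ 1 / (i : ℝ) := by
            apply one_div_le_one_div_of_le
            · exact_mod_cast hi.1
            · push_cast; linarith [show (0:ℝ) ≤ N from Nat.cast_nonneg N]
          calc (1 / ((N + i : ℕ) : ℝ)) * w (N + i) ≤ (1 / (i : ℝ)) * M :=
                mul_le_mul h4 (hwM _) (hw0 _) (by positivity)
            _ = _ := mul_comm _ _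
  have h4 : M * ∑ n ∈ Finset.Icc 1 N, (1 / (n : ℝ) - 1 / ((n + j : ℕ) : ℝ)) ≤
      M * (1 + Real.log H) := mul_le_mul_of_nonneg_left (le_trans h2 hL) hM0
  have h5 : M * ∑ m ∈ Finset.Icc 1 j, (1 : ℝ) / m ≤ M * (1 + Real.log H) :=
    mul_le_mul_of_nonneg_left hL hM0
  linarith

lemma S_scale (N H H' : ℕ) (hH : 1 ≤ H) (hH' : 1 ≤ H') (hN : 1 ≤ N) :
    S Γ f x₀ N H ≤ ((H / H' : ℕ) : ℝ) * S Γ f x₀ N H' + 2 * B * H * (1 + Real.log H) +
      B * H' * (1 + Real.log N) := by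
  have hB0 : 0 ≤ B := le_trans (norm_nonneg _) (hB (QuotientGroup.mk x₀))
  set q := H / H' with hq
  set r := H % H' with hr
  have hHqr : H = q * H' + r := by rw [hq, hr]; exact (Nat.div_add_mod' H H').symm
  have hrlt : r < H' := Nat.mod_lt _ (by omega)
  have hqH : q * H' ≤ H := by omega
  have h1 : ∀ n, W Γ f x₀ H n ≤ ∑ i ∈ Finset.range q, W Γ f x₀ H' (n + i * H') + H' * B := by
    intro n
    calc W Γ f x₀ H n = W Γ f x₀ (q * H' + r) n := by rw [← hHqr]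
      _ ≤ W Γ f x₀ (q * H') n + W Γ f x₀ r (n + q * H') := W_add Γ f x₀ B hB _ _ _
      _ ≤ ∑ i ∈ Finset.range q, W Γ f x₀ H' (n + i * H') + r * B :=
          add_le_add (W_mul Γ f x₀ B hB _ _ _) (W_le Γ f x₀ B hB _ _)
      _ ≤ _ := by
          have : (r : ℝ) ≤ H' := by exact_mod_cast hrlt.le
          nlinarith
  have h2 : S Γ f x₀ N H ≤ ∑ n ∈ Finset.Icc 1 N, (1 / (n : ℝ)) *
      (∑ i ∈ Finset.range q, W Γ f x₀ H' (n + i * H') + H' * B) := by
    rw [S_eq]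
    apply Finset.sum_le_sum
    intro n _
    exact mul_le_mul_of_nonneg_left (h1 n) (by positivity)
  have h3 : ∑ n ∈ Finset.Icc 1 N, (1 / (n : ℝ)) *
      (∑ i ∈ Finset.range q, W Γ f x₀ H' (n + i * H') + H' * B) =
      (∑ i ∈ Finset.range q, ∑ n ∈ Finset.Icc 1 N, (1 / (n : ℝ)) * W Γ f x₀ H' (n + i * H')) +
      (H' * B) * ∑ n ∈ Finset.Icc 1 N, (1 / (n : ℝ)) := by
    rw [Finset.sum_comm, Finset.mul_sum, ← Finset.sum_add_distrib]
    apply Finset.sum_congr rfl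
    intro n _
    rw [mul_add, Finset.mul_sum]; ring
  have h4 : ∑ i ∈ Finset.range q, ∑ n ∈ Finset.Icc 1 N, (1 / (n : ℝ)) * W Γ f x₀ H' (n + i * H') ≤
      ∑ i ∈ Finset.range q, (S Γ f x₀ N H' + 2 * (H' * B) * (1 + Real.log H)) := by
    apply Finset.sum_le_sum
    intro i hi
    rw [Finset.mem_range] at hi
    apply shift (W Γ f x₀ H') (H' * B) (W_nonneg Γ f x₀ H') (W_le Γ f x₀ B hB H') N (i * H') H _ hH
    calc i * H' ≤ q * H' := Nat.mul_le_mul_right _ hi.le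
      _ ≤ H := hqH
  rw [Finset.sum_const, Finset.card_range, nsmul_eq_mul] at h4
  have h5 := harm_le N hN
  have h6 : (H' * B) * ∑ n ∈ Finset.Icc 1 N, (1 / (n : ℝ)) ≤ (H' * B) * (1 + Real.log N) :=
    mul_le_mul_of_nonneg_left h5 (by positivity)
  have h7 : (q : ℝ) * (2 * (H' * B) * (1 + Real.log H)) ≤ 2 * B * H * (1 + Real.log H) := by
    have h8 : (q : ℝ) * H' ≤ H := by exact_mod_cast hqH
    have h9 : 0 ≤ 2 * B * (1 + Real.log H) := by
      have := Real.log_nonneg (show (1:ℝ) ≤ H by exact_mod_cast hH)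
      positivity
    calc (q : ℝ) * (2 * (H' * B) * (1 + Real.log H)) = (2 * B * (1 + Real.log H)) * (q * H') := by ring
      _ ≤ (2 * B * (1 + Real.log H)) * H := mul_le_mul_of_nonneg_left h8 h9
      _ = _ := by ring
  calc S Γ f x₀ N H ≤ _ := h2
    _ = _ := h3
    _ ≤ _ := by
      have : (H' * B) * (1 + Real.log N) = B * H' * (1 + Real.log N) := by ring
      nlinarith

theorem scale_reduction :
    (∀ ε : ℝ, 0 < ε → ∃ H₀ : ℕ, ∀ N H : ℕ, H₀ ≤ H → H ≤ N →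
        S Γ f x₀ N H ≤ ε * (H : ℝ) * Real.log (N : ℝ)) ↔
    ((∀ ε : ℝ, 0 < ε → ∃ H : ℕ, 1 ≤ H ∧ ∃ N₀ : ℕ, ∀ N : ℕ, N₀ ≤ N →
        S Γ f x₀ N H ≤ ε * (H : ℝ) * Real.log (N : ℝ)) ∧
     (∀ C : ℕ, ∀ ε : ℝ, 0 < ε → ∃ H₀ : ℕ, ∀ N H : ℕ, H₀ ≤ H → H ≤ N → N ≤ H ^ C →
        S Γ f x₀ N H ≤ ε * (H : ℝ) * Real.log (N : ℝ))) := by
  have hB0 : 0 ≤ B := le_trans (norm_nonneg _) (hB (QuotientGroup.mk x₀))
  constructor
  · intro hQ
    refine ⟨fun ε hε => ?_, fun C ε hε => ?_⟩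
    · obtain ⟨H₀, h⟩ := hQ ε hε
      exact ⟨max H₀ 1, le_max_right _ _, max H₀ 1, fun N hN => h N _ (le_max_left _ _) hN⟩
    · obtain ⟨H₀, h⟩ := hQ ε hε
      exact ⟨H₀, fun N H h1 h2 _ => h N H h1 h2⟩
  · rintro ⟨hA, hP⟩ ε hε
    obtain ⟨H', hH'1, N₀, hN₀⟩ := hA (ε / 4) (by positivity)
    obtain ⟨C, hC⟩ := exists_nat_ge (16 * B / ε)
    obtain ⟨H₁, hH₁⟩ := hP C ε hε
    obtain ⟨H₂, hH₂⟩ := exists_nat_ge (8 * B * H' / ε)
    refine ⟨max (max H₁ H₂) (max N₀ 3), ?_⟩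
    intro N H hH hHN
    have hHH₁ : H₁ ≤ H := le_trans (le_trans (le_max_left _ _) (le_max_left _ _)) hH
    have hHH₂ : H₂ ≤ H := le_trans (le_trans (le_max_right _ _) (le_max_left _ _)) hH
    have hHN₀ : N₀ ≤ H := le_trans (le_trans (le_max_left _ _) (le_max_right _ _)) hH
    have hH3 : 3 ≤ H := le_trans (le_trans (le_max_right _ _) (le_max_right _ _)) hH
    by_cases hNC : N ≤ H ^ C
    · exact hH₁ N H hHH₁ hHN hNC
    · push Not at hNC
      have hHr : (3 : ℝ) ≤ H := by exact_mod_cast hH3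
      have hNr : (H : ℝ) ≤ N := by exact_mod_cast hHN
      have hlogH : 1 ≤ Real.log H := by
        rw [← Real.log_exp 1]
        apply Real.log_le_log (Real.exp_pos 1)
        linarith [Real.exp_one_lt_d9]
      have hlogN : Real.log H ≤ Real.log N := Real.log_le_log (by linarith) hNr
      have hlogN1 : 1 ≤ Real.log N := le_trans hlogH hlogN
      have hlogNC : C * Real.log H ≤ Real.log N := by
        rw [← Real.log_pow]
        apply Real.log_le_log (by positivity)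
        exact_mod_cast hNC.le
      have h1 := S_scale Γ f x₀ B hB N H H' (by omega) hH'1 (by omega)
      have h2 := hN₀ N (by omega)
      have hq : ((H / H' : ℕ) : ℝ) * H' ≤ H := by exact_mod_cast Nat.div_mul_le_self H H'
      have h3 : ((H / H' : ℕ) : ℝ) * S Γ f x₀ N H' ≤ ε / 4 * H * Real.log N := by
        calc ((H / H' : ℕ) : ℝ) * S Γ f x₀ N H' ≤ ((H / H' : ℕ) : ℝ) * (ε / 4 * H' * Real.log N) :=
              mul_le_mul_of_nonneg_left h2 (by positivity)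
          _ = (ε / 4 * Real.log N) * (((H / H' : ℕ) : ℝ) * H') := by ring
          _ ≤ (ε / 4 * Real.log N) * H := mul_le_mul_of_nonneg_left hq (by positivity)
          _ = _ := by ring
      have h4 : 2 * B * H * (1 + Real.log H) ≤ ε / 4 * H * Real.log N := by
        have h5 : 16 * B / ε * Real.log H ≤ Real.log N := by
          refine le_trans ?_ hlogNC
          exact mul_le_mul_of_nonneg_right hC (by linarith)
        have h6 : 16 * B * Real.log H ≤ ε * Real.log N := by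
          have := mul_le_mul_of_nonneg_left h5 hε.le
          have e : ε * (16 * B / ε * Real.log H) = 16 * B * Real.log H := by field_simp
          linarith
        have h7 : 2 * B * (1 + Real.log H) ≤ ε / 4 * Real.log N := by
          nlinarith [mul_nonneg hB0 (show (0:ℝ) ≤ Real.log H - 1 by linarith)]
        calc 2 * B * H * (1 + Real.log H) = H * (2 * B * (1 + Real.log H)) := by ring
          _ ≤ H * (ε / 4 * Real.log N) := mul_le_mul_of_nonneg_left h7 (by positivity)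
          _ = _ := by ring
      have h8 : B * H' * (1 + Real.log N) ≤ ε / 4 * H * Real.log N := by
        have h9 : 8 * B * H' / ε ≤ H := le_trans hH₂ (by exact_mod_cast hHH₂)
        rw [div_le_iff₀ hε] at h9
        have h10 : B * H' * (1 + Real.log N) ≤ B * H' * (2 * Real.log N) :=
          mul_le_mul_of_nonneg_left (by linarith) (by positivity)
        nlinarith
      have h11 : 0 ≤ ε * H * Real.log N := by positivity
      linarith

end

theorem scale_reduction_nil :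
    ∀ (E : Type) [NormedAddCommGroup E] [NormedSpace ℝ E] [FiniteDimensional ℝ E]
      (G : Type) [Group G] [TopologicalSpace G] [ChartedSpace E G]
      [LieGroup 𝓘(ℝ, E) ((⊤ : ℕ∞) : WithTop ℕ∞) G]
      [SimplyConnectedSpace G] [Group.IsNilpotent G]
      (Γ : Subgroup G) [DiscreteTopology Γ] [CompactSpace (G ⧸ Γ)]
      (f : G ⧸ Γ → ℂ) (x₀ : G),
      (∀ y : G, ∃ K : NNReal, ∃ U ∈ nhds (extChartAt 𝓘(ℝ, E) y y),
        LipschitzOnWith K
          (fun v : E => f (QuotientGroup.mk ((extChartAt 𝓘(ℝ, E) y).symm v) : G ⧸ Γ)) U) →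
    ((∀ ε : ℝ, 0 < ε → ∃ H₀ : ℕ, ∀ N H : ℕ, H₀ ≤ H → H ≤ N →
        S Γ f x₀ N H ≤ ε * (H : ℝ) * Real.log (N : ℝ)) ↔
    ((∀ ε : ℝ, 0 < ε → ∃ H : ℕ, 1 ≤ H ∧ ∃ N₀ : ℕ, ∀ N : ℕ, N₀ ≤ N →
        S Γ f x₀ N H ≤ ε * (H : ℝ) * Real.log (N : ℝ)) ∧
     (∀ C : ℕ, ∀ ε : ℝ, 0 < ε → ∃ H₀ : ℕ, ∀ N H : ℕ, H₀ ≤ H → H ≤ N → N ≤ H ^ C →
        S Γ f x₀ N H ≤ ε * (H : ℝ) * Real.log (N : ℝ)))) := by
  intro E _ _ _ G _ _ _ _ _ _ Γ _ _ f x₀ hf
  have hfc := continuous_of_chartLipschitz E G Γ f hf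
  obtain ⟨B, hB⟩ : ∃ B, ∀ x, ‖f x‖ ≤ B := by
    obtain ⟨B, hB⟩ := (isCompact_univ (X := G ⧸ Γ)).exists_bound_of_continuousOn hfc.continuousOn
    exact ⟨B, fun x => hB x (Set.mem_univ x)⟩
  exact scale_reduction Γ f x₀ B hB

end Pool.Agent.MP663568h87
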