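import Mathlib
import Pool.Agent.Lib.MP_663568_nt.Orbit

set_option autoImplicit false

/-!
# Diagonal moments of polynomial phases

For a finite set `A` of naturals, coefficients `c m = ± 1` and `1 ≤ t`, some polynomial phase of
degree at most `t` makes `‖∑_{m ∈ A} c m e(P(m))‖` at least `√(min(t, |A|) |A|) / 4`.
-/

namespace Pool.Agent.MP663568h87

open Finset Polynomial
open Pool.Agent.Lib.MP_663568_nt Pool.Agent.Lib.MP_663568_nt.NilG
open Pool.Agent.Lib.MP_663568_nt.Katai

/-- uniqueness of the signed expansion in base `K` -/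
lemma base_unique (K : ℤ) (hK : 0 < K) : ∀ (t : ℕ) (d : ℕ → ℤ), (∀ l < t, |d l| < K) →
    ∑ l ∈ range t, d l * K ^ l = 0 → ∀ l < t, d l = 0 := by
  intro t
  induction t with
  | zero => intro d _ _ l hl; omega
  | succ t ih =>
    intro d hd hs
    rw [sum_range_succ'] at hs
    simp only [pow_zero, mul_one] at hs
    have h1 : ∑ l ∈ range t, d (l + 1) * K ^ (l + 1) =
        K * ∑ l ∈ range t, d (l + 1) * K ^ l := by
      rw [mul_sum]; exact sum_congr rfl fun l _ => by ring
    rw [h1] at hs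
    have h0 : d 0 = 0 := by
      apply Int.eq_zero_of_abs_lt_dvd (m := K) _ (hd 0 (by omega))
      exact ⟨-∑ l ∈ range t, d (l + 1) * K ^ l, by linarith⟩
    rw [h0, add_zero] at hs
    have h2 : ∑ l ∈ range t, d (l + 1) * K ^ l = 0 := by
      rcases mul_eq_zero.1 hs with h | h
      · omega
      · exact h
    have h3 := ih (fun l => d (l + 1)) (fun l hl => hd (l + 1) (by omega)) h2
    intro l hl
    cases l with
    | zero => exact h0
    | succ l => exact h3 l (by omega)

lemma all_poly {k t : ℕ} (x y : Fin k → ℕ)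
    (h : ∀ j ≤ t, ∑ i, (bN j).eval (x i : ℝ) = ∑ i, (bN j).eval (y i : ℝ)) :
    ∀ j ≤ t, ∀ P : ℝ[X], P.natDegree ≤ j →
      ∑ i, P.eval (x i : ℝ) = ∑ i, P.eval (y i : ℝ) := by
  intro j
  induction j with
  | zero =>
    intro _ P hP
    rw [eq_C_of_natDegree_le_zero hP]
    simp
  | succ j ih =>
    intro hj P hP
    set a : ℝ := P.coeff (j + 1) / (bN (j + 1)).coeff (j + 1) with ha
    have hne : (bN (j + 1)).coeff (j + 1) ≠ 0 := by
      rw [bN_coeff]
      have : ((j + 1).factorial : ℝ) ≠ 0 := by positivity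
      positivity
    have hQ : (P - C a * bN (j + 1)).natDegree ≤ j := by
      rw [natDegree_le_iff_coeff_eq_zero]
      intro N hN
      rw [coeff_sub, coeff_C_mul]
      rcases Nat.lt_or_ge (j + 1) N with h1 | h1
      · rw [coeff_eq_zero_of_natDegree_lt (by omega),
          coeff_eq_zero_of_natDegree_lt (lt_of_le_of_lt (bN_natDegree _) h1)]
        ring
      · have : N = j + 1 := by omega
        subst this
        rw [ha, div_mul_cancel₀ _ hne, sub_self]
    have h2 := ih (by omega) _ hQ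
    simp only [eval_sub, eval_mul, eval_C, sum_sub_distrib, ← mul_sum] at h2
    rw [h (j + 1) hj] at h2
    linarith

lemma count_eq {k t : ℕ} (hk : 2 * k ≤ t + 1) (x y : Fin k → ℕ)
    (h : ∀ j ≤ t, ∑ i, (bN j).eval (x i : ℝ) = ∑ i, (bN j).eval (y i : ℝ)) (a : ℕ) :
    (univ.filter fun i => x i = a).card = (univ.filter fun i => y i = a).card := by
  classical
  set D : Finset ℕ := univ.image x ∪ univ.image y with hD
  by_cases haD : a ∈ D
  · have hDcard : D.card ≤ 2 * k := by
      calc D.card ≤ (univ.image x).card + (univ.image y).card := card_union_le _ _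
        _ ≤ (univ : Finset (Fin k)).card + (univ : Finset (Fin k)).card :=
            add_le_add card_image_le card_image_le
        _ = 2 * k := by simp; ring
    set P : ℝ[X] := ∏ d ∈ D.erase a, (X - C (d : ℝ)) with hP
    have hdeg : P.natDegree ≤ t := by
      rw [hP, natDegree_prod_of_monic _ _ (fun d _ => monic_X_sub_C _)]
      simp only [natDegree_X_sub_C, sum_const, smul_eq_mul, mul_one]
      rw [card_erase_of_mem haD]
      omega
    have hPa : P.eval (a : ℝ) ≠ 0 := by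
      rw [hP, eval_prod]
      apply prod_ne_zero_iff.2
      intro d hd
      rw [eval_sub, eval_X, eval_C, sub_ne_zero]
      have := ne_of_mem_erase hd
      exact fun e => this (by exact_mod_cast e.symm)
    have hPd : ∀ d ∈ D, d ≠ a → P.eval (d : ℝ) = 0 := by
      intro d hd hda
      rw [hP, eval_prod]
      exact prod_eq_zero (mem_erase.2 ⟨hda, hd⟩) (by simp)
    have hsum : ∀ z : Fin k → ℕ, (∀ i, z i ∈ D) → ∑ i, P.eval (z i : ℝ) =
        ((univ.filter fun i => z i = a).card : ℝ) * P.eval (a : ℝ) := by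
      intro z hz
      rw [← sum_filter_add_sum_filter_not univ (fun i => z i = a)]
      rw [sum_eq_zero (s := univ.filter fun i => ¬ z i = a), add_zero]
      · rw [sum_congr rfl (g := fun _ => P.eval (a : ℝ)), sum_const, nsmul_eq_mul]
        intro i hi
        rw [mem_filter] at hi
        rw [hi.2]
      · intro i hi
        rw [mem_filter] at hi
        exact hPd _ (hz i) hi.2
    have hx := hsum x fun i => mem_union_left _ (mem_image_of_mem x (mem_univ i))
    have hy := hsum y fun i => mem_union_right _ (mem_image_of_mem y (mem_univ i))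
    have h1 := all_poly x y h t le_rfl P hdeg
    rw [hx, hy] at h1
    have := mul_right_cancel₀ hPa h1
    exact_mod_cast this
  · have e1 : (univ.filter fun i => x i = a) = ∅ := by
      rw [filter_eq_empty_iff]
      intro i _ hi
      exact haD (hD ▸ mem_union_left _ (hi ▸ mem_image_of_mem x (mem_univ i)))
    have e2 : (univ.filter fun i => y i = a) = ∅ := by
      rw [filter_eq_empty_iff]
      intro i _ hi
      exact haD (hD ▸ mem_union_right _ (hi ▸ mem_image_of_mem y (mem_univ i)))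
    rw [e1, e2]

lemma prod_eq {k t : ℕ} (hk : 2 * k ≤ t + 1) (x y : Fin k → ℕ)
    (h : ∀ j ≤ t, ∑ i, (bN j).eval (x i : ℝ) = ∑ i, (bN j).eval (y i : ℝ)) (g : ℕ → ℝ) :
    ∏ i, g (x i) = ∏ i, g (y i) := by
  classical
  have hm : (univ : Finset (Fin k)).val.map x = (univ : Finset (Fin k)).val.map y := by
    ext a
    rw [Multiset.count_map, Multiset.count_map]
    have := count_eq hk x y h a
    simp only [card_def, filter_val] at this
    convert this using 3 <;> simp [eq_comm]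
  have e : ∀ z : Fin k → ℕ, ∏ i, g (z i) = (((univ : Finset (Fin k)).val.map z).map g).prod := by
    intro z
    rw [Multiset.map_map]; rfl
  rw [e, e, hm]

lemma card_pairs (A : Finset ℕ) (k : ℕ) (w : ℕ → ℤ) :
    A.card.descFactorial k * k.factorial ≤
      (((Fintype.piFinset fun _ : Fin k => A) ×ˢ (Fintype.piFinset fun _ : Fin k => A)).filter
        fun p => ∑ i, w (p.1 i) = ∑ i, w (p.2 i)).card := by
  classical
  let φ : (Fin k ↪ A) × Equiv.Perm (Fin k) → (Fin k → ℕ) × (Fin k → ℕ) :=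
    fun p => (fun i => (p.1 i : ℕ), fun i => (p.1 (p.2 i) : ℕ))
  have hφ : Function.Injective φ := by
    rintro ⟨e, σ⟩ ⟨e', σ'⟩ h
    simp only [φ, Prod.mk.injEq] at h
    have h1 : e = e' := by
      ext i
      exact congrFun h.1 i
    subst h1
    have h2 : σ = σ' := by
      ext i
      have := congrFun h.2 i
      have := e.injective (Subtype.ext this)
      rw [this]
    rw [h2]
  calc A.card.descFactorial k * k.factorial = (univ.image φ).card := by
        rw [card_image_of_injective _ hφ, card_univ, Fintype.card_prod,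
          Fintype.card_embedding_eq, Fintype.card_perm]
        simp
    _ ≤ _ := by
        apply card_le_card
        intro p hp
        rw [mem_image] at hp
        obtain ⟨⟨e, σ⟩, -, rfl⟩ := hp
        rw [mem_filter, mem_product, Fintype.mem_piFinset, Fintype.mem_piFinset]
        refine ⟨⟨fun i => (e i).2, fun i => (e (σ i)).2⟩, ?_⟩
        exact (Equiv.sum_comp σ (fun i => w (e i))).symm

lemma integral_ee (n : ℤ) : ∫ θ in (0 : ℝ)..1, ee ((n : ℝ) * θ) = if n = 0 then 1 else 0 := by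
  by_cases hn : n = 0
  · subst hn
    simp [ee]
  · rw [if_neg hn]
    have hc : (2 * Real.pi * Complex.I * n : ℂ) ≠ 0 := by
      have : (n : ℂ) ≠ 0 := by exact_mod_cast hn
      have h2 : (Real.pi : ℂ) ≠ 0 := by exact_mod_cast Real.pi_ne_zero
      simp [this, h2]
    have e : ∀ θ : ℝ, ee ((n : ℝ) * θ) = Complex.exp ((2 * Real.pi * Complex.I * n) * θ) := by
      intro θ; rw [ee]; congr 1; push_cast; ring
    simp only [e]
    rw [integral_exp_mul_complex hc]
    have h1 : Complex.exp (2 * Real.pi * Complex.I * n * ((1 : ℝ) : ℂ)) = 1 := by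
      have := Complex.exp_int_mul_two_pi_mul_I n
      rw [← this]; congr 1; push_cast; ring
    rw [h1]
    simp

/-- the `2k`-th moment -/
lemma moment (A : Finset ℕ) (k : ℕ) (c : ℕ → ℝ) (w : ℕ → ℤ) :
    ((∫ θ in (0 : ℝ)..1, ‖∑ m ∈ A, (c m : ℂ) * ee ((w m : ℝ) * θ)‖ ^ (2 * k) : ℝ) : ℂ) =
      ∑ p ∈ (Fintype.piFinset fun _ : Fin k => A) ×ˢ (Fintype.piFinset fun _ : Fin k => A),
        ((∏ i, c (p.1 i)) * (∏ i, c (p.2 i)) : ℝ) *
          (if ∑ i, w (p.1 i) = ∑ i, w (p.2 i) then (1 : ℂ) else 0) := by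
  classical
  set P := Fintype.piFinset fun _ : Fin k => A with hP
  have hpow : ∀ θ : ℝ, (∑ m ∈ A, (c m : ℂ) * ee ((w m : ℝ) * θ)) ^ k =
      ∑ x ∈ P, ((∏ i, c (x i) : ℝ) : ℂ) * ee (((∑ i, w (x i) : ℤ) : ℝ) * θ) := by
    intro θ
    have h1 : (∑ m ∈ A, (c m : ℂ) * ee ((w m : ℝ) * θ)) ^ k =
        ∏ _i : Fin k, ∑ m ∈ A, (c m : ℂ) * ee ((w m : ℝ) * θ) := by simp
    rw [h1, prod_univ_sum]
    apply sum_congr rfl
    intro x _
    rw [prod_mul_distrib]
    push_cast
    congr 1
    have : ∀ s : Finset (Fin k), ∏ i ∈ s, ee ((w (x i) : ℝ) * θ) =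
        ee ((∑ i ∈ s, (w (x i) : ℝ)) * θ) := by
      intro s
      induction s using Finset.induction_on with
      | empty => simp [ee]
      | insert a s ha ih => rw [prod_insert ha, sum_insert ha, add_mul, ee_add, ih]
    exact this univ
  have hnorm : ∀ z : ℂ, ((‖z‖ ^ (2 * k) : ℝ) : ℂ) = z ^ k * (starRingEnd ℂ) (z ^ k) := by
    intro z
    rw [Complex.mul_conj, Complex.normSq_eq_norm_sq, norm_pow]
    congr 1
    rw [← pow_mul]; ring_nf
  rw [← intervalIntegral.integral_ofReal]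
  have hint : ∀ θ : ℝ, ((‖∑ m ∈ A, (c m : ℂ) * ee ((w m : ℝ) * θ)‖ ^ (2 * k) : ℝ) : ℂ) =
      ∑ p ∈ P ×ˢ P, ((∏ i, c (p.1 i)) * (∏ i, c (p.2 i)) : ℝ) *
        ee ((((∑ i, w (p.1 i)) - (∑ i, w (p.2 i)) : ℤ) : ℝ) * θ) := by
    intro θ
    rw [hnorm, hpow, map_sum, sum_mul_sum, sum_product]
    apply sum_congr rfl; intro x _
    apply sum_congr rfl; intro y _
    rw [map_mul, Complex.conj_ofReal]
    have : (((∑ i, w (x i)) - (∑ i, w (y i)) : ℤ) : ℝ) * θ =
        ((∑ i, w (x i) : ℤ) : ℝ) * θ - ((∑ i, w (y i) : ℤ) : ℝ) * θ := by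
      push_cast; ring
    rw [this, ee_sub]
    push_cast; ring
  simp only [hint]
  have hcont : ∀ n : ℤ, Continuous fun θ : ℝ => ee ((n : ℝ) * θ) := by
    intro n
    simp only [ee]
    fun_prop
  have hii : ∀ p ∈ P ×ˢ P, IntervalIntegrable (fun θ : ℝ =>
      (((∏ i, c (p.1 i)) * (∏ i, c (p.2 i)) : ℝ) : ℂ) *
        ee ((((∑ i, w (p.1 i)) - (∑ i, w (p.2 i)) : ℤ) : ℝ) * θ)) MeasureTheory.volume 0 1 :=
    fun p _ => (continuous_const.mul (hcont _)).intervalIntegrable _ _
  rw [intervalIntegral.integral_finsetSum hii]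
  apply sum_congr rfl
  intro p _
  rw [intervalIntegral.integral_const_mul, integral_ee]
  congr 1
  by_cases h : ∑ i, w (p.1 i) = ∑ i, w (p.2 i)
  · rw [if_pos h, if_pos (by omega)]
  · rw [if_neg h, if_neg (by omega)]

/-- lower bound for the `2k`-th power of the supremum -/
lemma pow_lower (A : Finset ℕ) (k : ℕ) (c : ℕ → ℝ) (w : ℕ → ℤ) (hc : ∀ m ∈ A, c m ^ 2 = 1)
    (hw : ∀ x ∈ Fintype.piFinset fun _ : Fin k => A, ∀ y ∈ Fintype.piFinset fun _ : Fin k => A,
      ∑ i, w (x i) = ∑ i, w (y i) → ∏ i, c (x i) = ∏ i, c (y i))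
    (W : ℝ) (hW : ∀ θ : ℝ, ‖∑ m ∈ A, (c m : ℂ) * ee ((w m : ℝ) * θ)‖ ≤ W) :
    ((A.card.descFactorial k * k.factorial : ℕ) : ℝ) ≤ W ^ (2 * k) := by
  classical
  set P := Fintype.piFinset fun _ : Fin k => A with hP
  have h1 := moment A k c w
  have h2 : ∑ p ∈ P ×ˢ P, (((∏ i, c (p.1 i)) * (∏ i, c (p.2 i)) : ℝ) : ℂ) *
          (if ∑ i, w (p.1 i) = ∑ i, w (p.2 i) then (1 : ℂ) else 0) =
      (((P ×ˢ P).filter fun p => ∑ i, w (p.1 i) = ∑ i, w (p.2 i)).card : ℝ) := by
    rw [card_eq_sum_ones, Nat.cast_sum, sum_filter]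
    push_cast
    apply sum_congr rfl
    intro p hp
    rw [mem_product] at hp
    by_cases h : ∑ i, w (p.1 i) = ∑ i, w (p.2 i)
    · rw [if_pos h, if_pos h, mul_one]
      have h3 := hw p.1 hp.1 p.2 hp.2 h
      have h4 : (∏ i, c (p.1 i)) * (∏ i, c (p.2 i)) = 1 := by
        rw [← h3, ← prod_mul_distrib]
        apply prod_eq_one
        intro i _
        rw [← sq]
        exact hc _ (Fintype.mem_piFinset.1 hp.1 i)
      have h5 : (((∏ i, c (p.1 i)) * (∏ i, c (p.2 i)) : ℝ) : ℂ) = 1 := by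
        rw [h4]; simp
      push_cast at h5
      exact h5
    · rw [if_neg h, if_neg h, mul_zero]
      simp
  rw [h2] at h1
  have h3 : ∫ θ in (0 : ℝ)..1, ‖∑ m ∈ A, (c m : ℂ) * ee ((w m : ℝ) * θ)‖ ^ (2 * k) =
      (((P ×ˢ P).filter fun p => ∑ i, w (p.1 i) = ∑ i, w (p.2 i)).card : ℝ) := by
    exact_mod_cast h1
  have hcont : Continuous fun θ : ℝ =>
      ‖∑ m ∈ A, (c m : ℂ) * ee ((w m : ℝ) * θ)‖ ^ (2 * k) := by
    simp only [ee]
    fun_prop
  have h4 : ∫ θ in (0 : ℝ)..1, ‖∑ m ∈ A, (c m : ℂ) * ee ((w m : ℝ) * θ)‖ ^ (2 * k) ≤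
      ∫ θ in (0 : ℝ)..1, W ^ (2 * k) := by
    apply intervalIntegral.integral_mono_on (by norm_num) (hcont.intervalIntegrable _ _)
      (continuous_const.intervalIntegrable _ _)
    intro θ _
    exact pow_le_pow_left₀ (norm_nonneg _) (hW θ) _
  rw [intervalIntegral.integral_const] at h4
  simp only [sub_zero, smul_eq_mul, one_mul] at h4
  rw [h3] at h4
  refine le_trans ?_ h4
  exact_mod_cast card_pairs A k w

lemma factorial_lower (k : ℕ) : ((k : ℝ) / Real.exp 1) ^ k ≤ k.factorial := by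
  have h := Real.pow_div_factorial_le_exp (x := (k : ℝ)) (by positivity) k
  rw [div_le_iff₀ (by positivity)] at h
  rw [div_pow, div_le_iff₀ (by positivity), ← Real.exp_nat_mul, mul_one, mul_comm]
  exact h

lemma descFactorial_lower (Q k : ℕ) (hk : 2 * k ≤ Q + 2) :
    ((Q : ℝ) / 2) ^ k ≤ (Q.descFactorial k : ℝ) := by
  have : ∀ j ≤ k, ((Q : ℝ) / 2) ^ j ≤ (Q.descFactorial j : ℝ) := by
    intro j
    induction j with
    | zero => simp
    | succ j ih =>
      intro hj
      rw [Nat.descFactorial_succ, pow_succ, mul_comm]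
      push_cast
      have h1 : (Q : ℝ) / 2 ≤ ((Q - j : ℕ) : ℝ) := by
        rw [div_le_iff₀ (by norm_num)]
        have : Q ≤ (Q - j) * 2 := by omega
        exact_mod_cast this
      exact mul_le_mul h1 (ih (by omega)) (by positivity) (by positivity)
  exact this k le_rfl

/-- The supremum over polynomial phases of degree at most `t`. -/
theorem sup_lower (t : ℕ) (ht : 1 ≤ t) (A : Finset ℕ) (c : ℕ → ℝ) (hc : ∀ m ∈ A, c m ^ 2 = 1)
    (W : ℝ) (hW : ∀ v : ℕ → ℝ,
      ‖∑ m ∈ A, (c m : ℂ) * ee (∑ l ∈ range t, v l * (bN (l + 1)).eval (m : ℝ))‖ ≤ W) :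
    √((min t A.card : ℕ) * (A.card : ℝ)) / 4 ≤ W := by
  classical
  have hW0 : 0 ≤ W := le_trans (norm_nonneg _) (hW 0)
  rcases Nat.eq_zero_or_pos A.card with hA | hA
  · rw [hA]; simpa using hW0
  set Q := A.card with hQ
  set k : ℕ := min ((t + 1) / 2) (Q / 2 + 1) with hk
  have hk1 : 1 ≤ k := by omega
  have hkt : 2 * k ≤ t + 1 := by omega
  have hkQ : 2 * k ≤ Q + 2 := by omega
  have hkmin : min t Q ≤ 2 * k := by omega
  set P := Fintype.piFinset fun _ : Fin k => A with hP
  -- integer values of the binomial polynomials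
  have hint : ∀ (j m : ℕ), ∃ z : ℤ, (bN j).eval (m : ℝ) = z := by
    intro j m
    refine ⟨Ring.choose (-(m : ℤ)) j, ?_⟩
    rw [bN_eval]
    have := Ring.map_choose (Int.castRingHom ℝ) (-(m : ℤ)) j
    simp only [eq_intCast] at this
    rw [this]; push_cast; rfl
  choose β hβ using hint
  obtain ⟨K, hK⟩ : ∃ K : ℕ, ∀ q ∈ (range t) ×ˢ (P ×ˢ P),
      (|∑ i, β (q.1 + 1) (q.2.1 i) - ∑ i, β (q.1 + 1) (q.2.2 i)|).toNat ≤ K :=
    Finset.exists_le (α := ℕ) (((range t) ×ˢ (P ×ˢ P)).image fun q =>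
      (|∑ i, β (q.1 + 1) (q.2.1 i) - ∑ i, β (q.1 + 1) (q.2.2 i)|).toNat) |>.imp
      fun K h q hq => h _ (mem_image_of_mem _ hq)
  set w : ℕ → ℤ := fun m => ∑ l ∈ range t, β (l + 1) m * ((K : ℤ) + 1) ^ l with hw
  have hwx : ∀ x : Fin k → ℕ, ∑ i, w (x i) =
      ∑ l ∈ range t, (∑ i, β (l + 1) (x i)) * ((K : ℤ) + 1) ^ l := by
    intro x
    simp only [hw]
    rw [sum_comm]
    exact sum_congr rfl fun l _ => by rw [sum_mul]
  have hmain := pow_lower A k c w hc (by
    intro x hx y hy hxy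
    rw [hwx, hwx, ← sub_eq_zero, ← sum_sub_distrib] at hxy
    have h1 : ∑ l ∈ range t, (∑ i, β (l + 1) (x i) - ∑ i, β (l + 1) (y i)) *
        ((K : ℤ) + 1) ^ l = 0 := by
      rw [← hxy]
      exact sum_congr rfl fun l _ => by ring
    have h2 := base_unique ((K : ℤ) + 1) (by positivity) t _ (by
      intro l hl
      have := hK (l, (x, y)) (mem_product.2 ⟨mem_range.2 hl, mem_product.2 ⟨hx, hy⟩⟩)
      have h0 := abs_nonneg (∑ i, β (l + 1) (x i) - ∑ i, β (l + 1) (y i))
      simp only at this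
      omega) h1
    apply prod_eq hkt x y
    intro j hj
    cases j with
    | zero => simp [bN]
    | succ l =>
      simp only [hβ]
      have h3 : ∑ i, β (l + 1) (x i) = ∑ i, β (l + 1) (y i) := by
        have := h2 l (by omega)
        omega
      exact_mod_cast h3) W (by
    intro θ
    have := hW (fun l => θ * ((K : ℝ) + 1) ^ l)
    refine le_trans (le_of_eq ?_) this
    congr 1
    apply sum_congr rfl
    intro m _
    congr 2
    simp only [hw]
    push_cast
    rw [sum_mul]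
    apply sum_congr rfl
    intro l _
    rw [hβ]
    ring)
  have hQr : (0 : ℝ) < Q := by exact_mod_cast hA
  have hkr : (0 : ℝ) < k := by exact_mod_cast hk1
  have h5 : ((Q : ℝ) / 2 * (k / Real.exp 1)) ^ k ≤ (W ^ 2) ^ k := by
    rw [← pow_mul, mul_pow]
    refine le_trans (mul_le_mul (descFactorial_lower Q k hkQ) (factorial_lower k)
      (by positivity) (by positivity)) ?_
    exact_mod_cast hmain
  have h6 : (Q : ℝ) / 2 * (k / Real.exp 1) ≤ W ^ 2 :=
    le_of_pow_le_pow_left₀ (by omega) (by positivity) h5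
  have h7 : ((min t Q : ℕ) : ℝ) ≤ 2 * k := by exact_mod_cast hkmin
  have h8 : ((min t Q : ℕ) : ℝ) * (Q : ℝ) / 16 ≤ W ^ 2 := by
    refine le_trans ?_ h6
    have he : Real.exp 1 < 4 := by linarith [Real.exp_one_lt_d9]
    have he0 := Real.exp_pos 1
    have : (k : ℝ) / 4 ≤ k / Real.exp 1 := by
      apply div_le_div_of_nonneg_left hkr.le he0 he.le
    calc ((min t Q : ℕ) : ℝ) * (Q : ℝ) / 16 ≤ (2 * k) * Q / 16 := by gcongr
      _ = (Q : ℝ) / 2 * (k / 4) := by ring
      _ ≤ _ := mul_le_mul_of_nonneg_left this (by positivity)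
  rw [div_le_iff₀ (by norm_num)]
  apply Real.sqrt_le_iff.2
  constructor
  · positivity
  · nlinarith

end Pool.Agent.MP663568h87
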