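import Mathlib
import Pool.Agent.Lib.MP_663568_nt_h87.Vino
import Pool.Agent.Lib.MP_663568_nt_h87.Lower3

set_option autoImplicit false

/-!
# A lower bound for `S_f(N,H)` on `t`-step nilmanifolds growing with `t`
-/

open scoped Manifold

namespace Pool.Agent.MP663568h87

open Finset Polynomial ArithmeticFunction
open Pool.Agent.Lib.MP_663568_nt Pool.Agent.Lib.MP_663568_nt.NilG
open Pool.Agent.Lib.MP_663568_nt.Katai

/-- the function on the group, `cos²(π s) e((shift(-m) c)_0)` with `m` an integer -/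
noncomputable def Phi (r : ℕ) (m : ℤ) (x : ℝ × (Fin (r + 1) → ℝ)) : ℂ :=
  ((Real.cos (Real.pi * x.1) ^ 2 : ℝ) : ℂ) * ee (co (shift (-(m : ℝ)) x.2) 0)

/-- the function on the group: `m` is the integer nearest to `s` -/
noncomputable def FF (r : ℕ) (x : NilG r) : ℂ := Phi r (round (fs x)) (fs x, sn x)

lemma FF_mul (r : ℕ) (x γ : NilG r) (hγ : γ ∈ Gam r) : FF r (x * γ) = FF r x := by
  obtain ⟨⟨m, hm⟩, hz⟩ := hγ
  choose z hz using hz
  unfold FF Phi
  simp only [fs_mul, sn_mul, hm, round_add_intCast]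
  congr 1
  · congr 1
    rw [mul_add, mul_comm Real.pi (m : ℝ)]
    rcases Int.even_or_odd m with ⟨j, hj⟩ | ⟨j, hj⟩
    · have : Real.pi * fs x + (m : ℝ) * Real.pi = Real.pi * fs x + (j : ℝ) * (2 * Real.pi) := by
        rw [hj]; push_cast; ring
      rw [this, Real.cos_add_int_mul_two_pi]
    · have : Real.pi * fs x + (m : ℝ) * Real.pi =
          (Real.pi * fs x + (j : ℝ) * (2 * Real.pi)) + Real.pi := by
        rw [hj]; push_cast; ring
      rw [this, Real.cos_add_pi, Real.cos_add_int_mul_two_pi, neg_sq]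
  · push_cast
    rw [neg_add, shift_add_right, shift_shift, co_add]
    have e1 : -(round (fs x) : ℝ) + -(m : ℝ) + m = -(round (fs x) : ℝ) := by ring
    rw [e1]
    have e2 : co (shift (-(round (fs x) : ℝ) + -(m : ℝ)) (sn γ)) 0 =
        ((∑ i ∈ range (r + 1), Ring.choose (-(round (fs x)) + -m : ℤ) i * z (0 + i) : ℤ) : ℝ) := by
      rw [co_shift]
      push_cast
      apply sum_congr rfl
      intro i _
      rw [hz]
      have := Ring.map_choose (Int.castRingHom ℝ) (-(round (fs x)) + -m : ℤ) i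
      simp only [eq_intCast] at this
      rw [this]; push_cast; rfl
    rw [e2, ee_add, ee_int, mul_one]

/-- the function on the nilmanifold -/
noncomputable def ff (r : ℕ) : NilG r ⧸ Gam r → ℂ :=
  Quotient.lift (s := QuotientGroup.leftRel (Gam r)) (FF r) (by
    intro a b hab
    have h1 : a⁻¹ * b ∈ Gam r := QuotientGroup.leftRel_apply.1 hab
    have : b = a * (a⁻¹ * b) := by group
    rw [this, FF_mul r a _ h1])

lemma ff_mk (r : ℕ) (x : NilG r) : ff r (QuotientGroup.mk x) = FF r x := rfl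

lemma norm_Phi_le_cos (r : ℕ) (m : ℤ) (x : ℝ × (Fin (r + 1) → ℝ)) :
    ‖Phi r m x‖ ≤ |Real.cos (Real.pi * x.1)| := by
  unfold Phi
  rw [norm_mul, norm_ee, mul_one, Complex.norm_real, Real.norm_eq_abs, abs_pow]
  have h1 : |Real.cos (Real.pi * x.1)| ≤ 1 := Real.abs_cos_le_one _
  have h0 := abs_nonneg (Real.cos (Real.pi * x.1))
  nlinarith

lemma norm_ff_le (r : ℕ) (x : NilG r ⧸ Gam r) : ‖ff r x‖ ≤ 1 := by
  induction x using QuotientGroup.induction_on with
  | H x =>
    rw [ff_mk]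
    exact (norm_Phi_le_cos r _ _).trans (Real.abs_cos_le_one _)

lemma abs_cos_le (s : ℝ) (h : ℤ) :
    |Real.cos (Real.pi * s)| ≤ Real.pi * |s - ((h : ℝ) - 1 / 2)| := by
  have h0 : Real.cos (Real.pi * ((h : ℝ) - 1 / 2)) = 0 := by
    rw [Real.cos_eq_zero_iff]
    exact ⟨h - 1, by push_cast; ring⟩
  have h1 := Real.abs_cos_sub_cos_le (Real.pi * s) (Real.pi * ((h : ℝ) - 1 / 2))
  rw [h0, sub_zero, ← mul_sub, abs_mul, abs_of_pos Real.pi_pos] at h1
  exact h1

lemma contDiff_Phi (r : ℕ) (m : ℤ) : ContDiff ℝ 1 (Phi r m) := by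
  unfold Phi
  have h1 : ContDiff ℝ 1 (fun x : ℝ × (Fin (r + 1) → ℝ) =>
      ((Real.cos (Real.pi * x.1) ^ 2 : ℝ) : ℂ)) := by
    apply Complex.ofRealCLM.contDiff.comp
    exact (Real.contDiff_cos.comp (contDiff_const.mul contDiff_fst)).pow 2
  have h2 : ContDiff ℝ 1 (fun x : ℝ × (Fin (r + 1) → ℝ) => co (shift (-(m : ℝ)) x.2) 0) :=
    (contDiff_co 0 1).comp ((contDiff_shift 1).comp (contDiff_const.prodMk contDiff_snd))
  have h3 : ContDiff ℝ 1 ee := by
    unfold ee
    exact Complex.contDiff_exp.comp (contDiff_const.mul Complex.ofRealCLM.contDiff)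
  exact h1.mul (h3.comp h2)

/-- local Lipschitz continuity on the group -/
lemma lip (r : ℕ) (y : ℝ × (Fin (r + 1) → ℝ)) : ∃ K : NNReal, ∃ U ∈ nhds y,
    LipschitzOnWith K (fun v : ℝ × (Fin (r + 1) → ℝ) => Phi r (round v.1) v) U := by
  set a : ℤ := round y.1 with ha
  have hL : ∀ m : ℤ, ∃ K : NNReal, ∃ U ∈ nhds y, LipschitzOnWith K (Phi r m) U := fun m =>
    (contDiff_Phi r m).contDiffAt.exists_lipschitzOnWith
  obtain ⟨K₁, U₁, hU₁, h₁⟩ := hL (a - 1)
  obtain ⟨K₂, U₂, hU₂, h₂⟩ := hL a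
  obtain ⟨K₃, U₃, hU₃, h₃⟩ := hL (a + 1)
  set V : Set (ℝ × (Fin (r + 1) → ℝ)) := {v | |v.1 - y.1| < 1 / 2} with hV
  have hVn : V ∈ nhds y := by
    apply IsOpen.mem_nhds
    · exact isOpen_lt ((continuous_fst.sub continuous_const).abs) continuous_const
    · show |y.1 - y.1| < 1 / 2
      simp
  set K : NNReal := K₁ + K₂ + K₃ + ⟨Real.pi, Real.pi_pos.le⟩ with hK
  refine ⟨K, (U₁ ∩ U₂ ∩ U₃) ∩ V,
    Filter.inter_mem (Filter.inter_mem (Filter.inter_mem hU₁ hU₂) hU₃) hVn, ?_⟩
  apply LipschitzOnWith.of_dist_le_mul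
  intro u hu v hv
  have hround : ∀ w ∈ V, round w.1 = a - 1 ∨ round w.1 = a ∨ round w.1 = a + 1 := by
    intro w hw
    have h1 : |w.1 - y.1| < 1 / 2 := hw
    have h2 := abs_sub_round y.1
    have h3 := abs_sub_round w.1
    rw [← ha] at h2
    have h4 : |((round w.1 : ℤ) : ℝ) - (a : ℝ)| < 2 := by
      have e : ((round w.1 : ℤ) : ℝ) - (a : ℝ) =
          -(w.1 - round w.1) + ((w.1 - y.1) + (y.1 - a)) := by ring
      rw [e]
      calc _ ≤ |-(w.1 - round w.1)| + |(w.1 - y.1) + (y.1 - a)| := abs_add_le _ _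
        _ ≤ |w.1 - round w.1| + (|w.1 - y.1| + |y.1 - a|) := by
            rw [abs_neg]; gcongr; exact abs_add_le _ _
        _ < 2 := by linarith
    have h5 : |(round w.1 : ℤ) - a| < 2 := by exact_mod_cast h4
    rw [abs_lt] at h5
    omega
  have hpiece : ∀ m : ℤ, (m = a - 1 ∨ m = a ∨ m = a + 1) →
      dist (Phi r m u) (Phi r m v) ≤ K * dist u v := by
    intro m hm
    have hd : 0 ≤ dist u v := dist_nonneg
    have hpi := Real.pi_pos.le
    have hKe : (K : ℝ) = K₁ + K₂ + K₃ + Real.pi := by rw [hK]; push_cast; rfl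
    have p1 := K₁.coe_nonneg
    have p2 := K₂.coe_nonneg
    have p3 := K₃.coe_nonneg
    rw [hKe]
    rcases hm with rfl | rfl | rfl
    · have := h₁.dist_le_mul u hu.1.1.1 v hv.1.1.1
      nlinarith
    · have := h₂.dist_le_mul u hu.1.1.2 v hv.1.1.2
      nlinarith
    · have := h₃.dist_le_mul u hu.1.2 v hv.1.2
      nlinarith
  by_cases he : round u.1 = round v.1
  · show dist (Phi r (round u.1) u) (Phi r (round v.1) v) ≤ _
    rw [← he]
    exact hpiece _ (hround u hu.2)
  · -- different rounds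
    have hgen : ∀ u v : ℝ × (Fin (r + 1) → ℝ), round u.1 < round v.1 →
        dist (Phi r (round u.1) u) (Phi r (round v.1) v) ≤ Real.pi * dist u v := by
      intro u v huv
      have e1 : u.1 < (round v.1 : ℝ) - 1 / 2 := by
        by_contra hcon
        push Not at hcon
        have : (round v.1 : ℤ) ≤ round u.1 := by
          rw [round_eq u.1, Int.le_floor]; linarith
        omega
      have e2 : (round v.1 : ℝ) - 1 / 2 ≤ v.1 := by
        have := Int.floor_le (v.1 + 1 / 2)
        rw [← round_eq] at this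
        linarith
      have h1 := (norm_Phi_le_cos r (round u.1) u).trans (abs_cos_le u.1 (round v.1))
      have h2 := (norm_Phi_le_cos r (round v.1) v).trans (abs_cos_le v.1 (round v.1))
      rw [abs_of_neg (by linarith)] at h1
      rw [abs_of_nonneg (by linarith)] at h2
      have h3 : v.1 - u.1 ≤ dist u v := by
        have h4 : |u.1 - v.1| ≤ dist u v := by
          rw [← Real.dist_eq, Prod.dist_eq]
          exact le_max_left _ _
        have := neg_abs_le (u.1 - v.1)
        linarith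
      rw [dist_eq_norm]
      refine (norm_sub_le _ _).trans ?_
      have hpi := Real.pi_pos
      nlinarith
    have hKpi : Real.pi ≤ (K : ℝ) := by
      rw [hK]; push_cast
      have p1 := K₁.coe_nonneg
      have p2 := K₂.coe_nonneg
      have p3 := K₃.coe_nonneg
      show Real.pi ≤ (K₁ : ℝ) + K₂ + K₃ + Real.pi
      linarith
    have hd : 0 ≤ dist u v := dist_nonneg
    show dist (Phi r (round u.1) u) (Phi r (round v.1) v) ≤ K * dist u v
    rcases lt_or_gt_of_ne he with h | h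
    · exact (hgen u v h).trans (mul_le_mul_of_nonneg_right hKpi hd)
    · rw [dist_comm, dist_comm u v]
      exact (hgen v u h).trans (mul_le_mul_of_nonneg_right hKpi (by rwa [dist_comm]))

/-- `ff` along the orbits of `(1, v)` -/
lemma ff_orbit (r : ℕ) (v : Fin (r + 1) → ℝ) (n : ℕ) :
    ff r (QuotientGroup.mk ((NilG.mk 1 v : NilG r) ^ n * 1)) =
      ee (-∑ l ∈ range (r + 1), co v l * (bN (l + 1)).eval (n : ℝ)) := by
  rw [orbit, ff_mk]
  unfold FF Phi
  simp only [fs_mk, sn_mk, fs_one, sn_one, shift_zero_right, shift_zero, add_zero, round_zero,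
    Int.cast_zero, neg_zero, mul_zero, Real.cos_zero, one_pow, Complex.ofReal_one, one_mul]
  rw [co_zz]
  congr 2
  apply sum_congr rfl
  intro l _
  rw [bN_eval, zero_add, mul_comm]

/-- Lower bound for the supremum in a window. -/
lemma window_step (r : ℕ) (n H : ℕ) :
    √((min (r + 1) ((Icc 1 H).filter fun h => (moebius (n + h)) ≠ 0).card : ℕ) *
      (((Icc 1 H).filter fun h => (moebius (n + h)) ≠ 0).card : ℝ)) / 4 ≤
    ⨆ g : NilG r, ‖∑ h ∈ Icc 1 H, ff r (QuotientGroup.mk (g ^ (h + n) * 1) : NilG r ⧸ Gam r) *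
              ((moebius (n + h) : ℤ) : ℂ)‖ := by
  classical
  set A : Finset ℕ := ((Icc 1 H).filter fun h => (moebius (n + h)) ≠ 0).image fun h => n + h with hA
  have hinj : Set.InjOn (fun h => n + h) (((Icc 1 H).filter fun h => (moebius (n + h)) ≠ 0 : Finset ℕ) :
      Set ℕ) := fun x _ y _ h => by simpa using h
  have hcard : A.card = ((Icc 1 H).filter fun h => (moebius (n + h)) ≠ 0).card :=
    card_image_of_injOn hinj
  rw [← hcard]
  apply sup_lower (r + 1) (by omega) A (fun m => ((moebius m : ℤ) : ℝ))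
  · intro m hm
    rw [hA, mem_image] at hm
    obtain ⟨h, hh, rfl⟩ := hm
    rw [mem_filter] at hh
    have := (moebius_ne_zero_iff_eq_or).1 hh.2
    rcases this with h1 | h1 <;> rw [h1] <;> norm_num
  · intro v
    have hbdd : BddAbove (Set.range fun g : NilG r => ‖∑ h ∈ Finset.Icc 1 H,
            ff r (QuotientGroup.mk (g ^ (h + n) * 1) : NilG r ⧸ Gam r) *
              ((ArithmeticFunction.moebius (n + h) : ℤ) : ℂ)‖) :=
      ⟨H * 1, by rintro _ ⟨g, rfl⟩; exact sup_bdd (Gam r) (ff r) 1 1 (norm_ff_le r) n H g⟩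
    refine le_trans (le_of_eq ?_) (le_ciSup hbdd (NilG.mk 1 fun l => -v l))
    congr 1
    rw [hA, sum_image hinj, sum_filter]
    apply sum_congr rfl
    intro h _
    by_cases h0 : moebius (n + h) ≠ 0
    · rw [if_pos h0, ff_orbit, add_comm h n, mul_comm]
      congr 2
      · rw [← sum_neg_distrib]
        apply sum_congr rfl
        intro l hl
        rw [co_of_lt _ _ (mem_range.1 hl)]
        push_cast
        ring
    · rw [if_neg h0]
      push Not at h0
      rw [h0]; simp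

/-- The lower bound for `S_f(N,H)` on the `(r+1)`-step nilmanifold. -/
theorem step_lower (r H N : ℕ) (hH : 1 ≤ H) (hN : Real.exp 2 * (H : ℝ) ^ 2 ≤ N) :
    √((min (r + 1) H : ℕ) * (H : ℝ)) * Real.log N / 40 ≤ S (Gam r) (ff r) 1 N H := by
  classical
  have hHr : (1 : ℝ) ≤ H := by exact_mod_cast hH
  set ρ : ℝ := √((min (r + 1) H : ℕ) * (H : ℝ)) / H with hρ
  have hρ0 : 0 ≤ ρ := by positivity
  have hwin : ∀ n : ℕ, (1 / 4) * ρ * ∑ h ∈ Icc 1 H, ((moebius (n + h) : ℤ) : ℝ) ^ 2 ≤
      ⨆ g : NilG r, ‖∑ h ∈ Icc 1 H, ff r (QuotientGroup.mk (g ^ (h + n) * 1) : NilG r ⧸ Gam r) *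
              ((moebius (n + h) : ℤ) : ℂ)‖ := by
    intro n
    refine le_trans ?_ (window_step r n H)
    set B := (Icc 1 H).filter fun h => (moebius (n + h)) ≠ 0 with hB
    have hBH : B.card ≤ H := by
      calc B.card ≤ (Icc 1 H).card := card_filter_le _ _
        _ = H := by simp
    have hsum : ∑ h ∈ Icc 1 H, ((moebius (n + h) : ℤ) : ℝ) ^ 2 = B.card := by
      rw [card_eq_sum_ones, hB, sum_filter]
      push_cast
      apply sum_congr rfl
      intro h _
      by_cases h0 : moebius (n + h) = 0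
      · rw [if_neg (by simpa using h0), h0]; norm_num
      · rw [if_pos h0]
        rcases (moebius_ne_zero_iff_eq_or).1 h0 with h1 | h1 <;> rw [h1] <;> norm_num
    rw [hsum]
    have hBHr : (B.card : ℝ) ≤ H := by exact_mod_cast hBH
    -- `ρ |B| ≤ √(min(t,|B|) |B|)`
    have key : ρ * B.card ≤ √((min (r + 1) B.card : ℕ) * (B.card : ℝ)) := by
      apply Real.le_sqrt_of_sq_le
      rw [mul_pow, hρ, div_pow, Real.sq_sqrt (by positivity)]
      have h1 : ((min (r + 1) H : ℕ) : ℝ) * B.card ≤ ((min (r + 1) B.card : ℕ) : ℝ) * H := by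
        have : min (r + 1) H * B.card ≤ min (r + 1) B.card * H := by
          rcases le_total (r + 1) B.card with h2 | h2
          · rw [min_eq_left h2, min_eq_left (h2.trans hBH)]
            exact Nat.mul_le_mul_left _ hBH
          · rw [min_eq_right h2, mul_comm]
            exact Nat.mul_le_mul_left _ (min_le_right _ _)
        exact_mod_cast this
      have hH0 : (H : ℝ) ≠ 0 := by positivity
      calc ((min (r + 1) H : ℕ) : ℝ) * (H : ℝ) / (H : ℝ) ^ 2 * (B.card : ℝ) ^ 2
          = (((min (r + 1) H : ℕ) : ℝ) * B.card) * B.card / H := by field_simp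
        _ ≤ (((min (r + 1) B.card : ℕ) : ℝ) * H) * B.card / H := by gcongr
        _ = _ := by field_simp
    linarith
  have hS : (1 / 4) * ρ * (H * ((6 / Real.pi ^ 2) * Real.log N -
      (1 + Real.log ((0 : ℕ) + H)))) ≤ S (Gam r) (ff r) 1 N H := by
    calc _ ≤ (1 / 4) * ρ * ∑ n ∈ (Finset.Icc 1 N).filter (fun n => 0 ≤ n),
          (1 / (n:ℝ)) * ∑ h ∈ Finset.Icc 1 H, ((moebius (n + h) : ℤ) : ℝ) ^ 2 :=
          mul_le_mul_of_nonneg_left (avg_lower 0 H N hH) (by positivity)
      _ ≤ _ := by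
          rw [mul_sum]
          unfold S
          rw [filter_true_of_mem (fun n _ => Nat.zero_le n)]
          apply sum_le_sum
          intro n _
          calc _ = (1 / (n:ℝ)) * ((1 / 4) * ρ * ∑ h ∈ Finset.Icc 1 H,
                ((moebius (n + h) : ℤ) : ℝ) ^ 2) := by ring
            _ ≤ _ := mul_le_mul_of_nonneg_left (hwin n) (by positivity)
  have hlogN : 2 + 2 * Real.log H ≤ Real.log N := by
    have h1 : Real.exp (2 + 2 * Real.log H) ≤ N := by
      rw [Real.exp_add]
      have : Real.exp (2 * Real.log H) = (H : ℝ) ^ 2 := by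
        rw [mul_comm, Real.exp_mul, Real.exp_log (by linarith)]
        norm_cast
      rw [this]; exact hN
    calc _ = Real.log (Real.exp (2 + 2 * Real.log H)) := by rw [Real.log_exp]
      _ ≤ _ := Real.log_le_log (Real.exp_pos _) h1
  have hlogH : 0 ≤ Real.log H := Real.log_nonneg hHr
  have hpi : (3 / 5 : ℝ) ≤ 6 / Real.pi ^ 2 := by
    rw [le_div_iff₀ (by positivity)]
    have h1 := Real.pi_lt_d2
    have h2 := Real.pi_pos
    nlinarith
  have hfin : Real.log N / 10 ≤ (6 / Real.pi ^ 2) * Real.log N -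
      (1 + Real.log ((0 : ℕ) + H)) := by
    have e : Real.log (((0 : ℕ) : ℝ) + H) = Real.log H := by simp
    rw [e]
    have h0 : 0 ≤ Real.log N := by linarith
    nlinarith [mul_le_mul_of_nonneg_right hpi h0]
  refine le_trans ?_ hS
  have e1 : ρ * H = √((min (r + 1) H : ℕ) * (H : ℝ)) := by
    rw [hρ]; field_simp
  calc √((min (r + 1) H : ℕ) * (H : ℝ)) * Real.log N / 40
      = (1 / 4) * (ρ * H) * (Real.log N / 10) := by rw [e1]; ring
    _ ≤ (1 / 4) * (ρ * H) * ((6 / Real.pi ^ 2) * Real.log N -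
      (1 + Real.log ((0 : ℕ) + H))) := mul_le_mul_of_nonneg_left hfin (by positivity)
    _ = _ := by ring

end Pool.Agent.MP663568h87

namespace Pool.Agent.MP663568h87

open Finset Polynomial ArithmeticFunction
open Pool.Agent.Lib.MP_663568_nt Pool.Agent.Lib.MP_663568_nt.NilG
open Pool.Agent.Lib.MP_663568_nt.Katai

/-- The threshold `H₀(ε)` of Q1 grows at least like `t / ε²`. -/
theorem step_threshold (r : ℕ) (ε : ℝ) (hε : 0 < ε) (hε1 : ε < 1 / 40) (H₀ : ℕ)
    (h : ∀ N H : ℕ, H₀ ≤ H → H ≤ N → S (Gam r) (ff r) 1 N H ≤ ε * (H : ℝ) * Real.log (N : ℝ)) :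
    ((r + 1 : ℕ) : ℝ) / (1600 * ε ^ 2) ≤ H₀ := by
  have key : ∀ H : ℕ, 1 ≤ H → H₀ ≤ H → ((r + 1 : ℕ) : ℝ) ≤ 1600 * ε ^ 2 * H := by
    intro H hH1 hH
    have hHr : (1 : ℝ) ≤ H := by exact_mod_cast hH1
    obtain ⟨N, hN⟩ := exists_nat_ge (Real.exp 2 * (H : ℝ) ^ 2)
    have he : (1 : ℝ) ≤ Real.exp 2 := Real.one_le_exp (by norm_num)
    have hHN : (H : ℝ) ≤ N := by nlinarith
    have h1 := step_lower r H N hH1 hN
    have h2 := h N H hH (by exact_mod_cast hHN)
    have hlog : 0 < Real.log N := by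
      apply Real.log_pos
      have h3 : (2 : ℝ) < Real.exp 2 := by
        have := Real.add_one_lt_exp (x := 2) (by norm_num)
        linarith
      nlinarith
    have h3 : √((min (r + 1) H : ℕ) * (H : ℝ)) ≤ 40 * ε * H := by
      have h4 : √((min (r + 1) H : ℕ) * (H : ℝ)) * Real.log N ≤ (40 * ε * H) * Real.log N := by
        linarith
      exact le_of_mul_le_mul_right h4 hlog
    have h5 : ((min (r + 1) H : ℕ) : ℝ) * (H : ℝ) ≤ (40 * ε * H) ^ 2 := by
      have := Real.sqrt_le_iff.1 h3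
      exact this.2
    have h6 : ((min (r + 1) H : ℕ) : ℝ) ≤ 1600 * ε ^ 2 * H := by
      have h7 : ((min (r + 1) H : ℕ) : ℝ) * (H : ℝ) ≤ (1600 * ε ^ 2 * H) * H := by
        calc _ ≤ (40 * ε * H) ^ 2 := h5
          _ = _ := by ring
      exact le_of_mul_le_mul_right h7 (by linarith)
    rcases le_total (r + 1) H with h8 | h8
    · rwa [min_eq_left h8] at h6
    · rw [min_eq_right h8] at h6
      exfalso
      have h9 : ε ^ 2 < (1 / 40) ^ 2 := pow_lt_pow_left₀ hε1 hε.le (by norm_num)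
      nlinarith
  have hH₀ : 1 ≤ H₀ := by
    by_contra hcon
    have := key 1 le_rfl (by omega)
    have h9 : ε ^ 2 < (1 / 40) ^ 2 := pow_lt_pow_left₀ hε1 hε.le (by norm_num)
    have h10 : (1 : ℝ) ≤ ((r + 1 : ℕ) : ℝ) := by
      have : 1 ≤ r + 1 := by omega
      exact_mod_cast this
    push_cast at this h10
    linarith
  rw [div_le_iff₀ (by positivity)]
  have := key H₀ hH₀ le_rfl
  linarith

end Pool.Agent.MP663568h87
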