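import Mathlib
import Pool.Agent.Lib.MP_663568_nt_h87.Good
import Pool.Agent.Lib.MP_663568_nt_h87.Scale

set_option autoImplicit false

/-!
# Q1 for a nilmanifold: the weakest and the strongest form are equivalent
-/

open scoped Manifold

namespace Pool.Agent.MP663568h87

/-- The weak estimate for one function `f` and one base point `x₀`: for every `ε` there is one
scale `H` for which the bound of Q1 holds for all large `N ∈ 𝒩`, and the sums over initial segments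
are small uniformly in `g`. -/
def WeakAt {G : Type} [Group G] (Γ : Subgroup G) (𝒩 : Set ℕ) (f : G ⧸ Γ → ℂ) (x₀ : G) : Prop :=
  ∀ ε : ℝ, 0 < ε →
    (∃ H : ℕ, 1 ≤ H ∧ ∃ N₀ : ℕ, ∀ N ∈ 𝒩, N₀ ≤ N →
      S Γ f x₀ N H ≤ ε * (H : ℝ) * Real.log (N : ℝ)) ∧
    (∃ M₀ : ℕ, ∀ M : ℕ, M₀ ≤ M → ∀ g : G,
      ‖∑ m ∈ Finset.Icc 1 M, f (QuotientGroup.mk (g ^ m * x₀) : G ⧸ Γ) *
        ((ArithmeticFunction.moebius m : ℤ) : ℂ)‖ ≤ ε * (M : ℝ))

/-- The strong estimate: in every window `(n, n + H]` the rotation `g n`, the base point `x n`, the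
function `f n` (in a fixed compact set `F` of continuous functions) and the sub-interval
`(a n, b n]` are chosen freely. -/
def StrongEst {G : Type} [Group G] [TopologicalSpace G] (Γ : Subgroup G)
    [CompactSpace (G ⧸ Γ)] : Prop :=
  ∀ F : Set C(G ⧸ Γ, ℂ), IsCompact F → ∀ ε : ℝ, 0 < ε → ∃ H₀ : ℕ, ∀ N H : ℕ, H₀ ≤ H → H ≤ N →
    ∀ (f : ℕ → C(G ⧸ Γ, ℂ)) (g x : ℕ → G) (a b : ℕ → ℕ), (∀ n, f n ∈ F) →
      (∀ n, n ≤ a n ∧ b n ≤ n + H) →
      ∑ n ∈ Finset.Icc 1 N, (1 / (n : ℝ)) *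
        ‖∑ m ∈ Finset.Ioc (a n) (b n), f n (QuotientGroup.mk (g n ^ m * x n) : G ⧸ Γ) *
          ((ArithmeticFunction.moebius m : ℤ) : ℂ)‖
      ≤ ε * (H : ℝ) * Real.log (N : ℝ)

section
variable {G : Type} [Group G] (Γ : Subgroup G)

/-- the sequences `m ↦ f (g ^ m x₀ Γ) μ(m)` -/
def Seqs (f : G ⧸ Γ → ℂ) (x₀ : G) : Set (ℕ → ℂ) :=
  Set.range fun (g : G) (m : ℕ) =>
    f (QuotientGroup.mk (g ^ m * x₀) : G ⧸ Γ) * ((ArithmeticFunction.moebius m : ℤ) : ℂ)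

lemma norm_moebius_le (m : ℕ) : ‖((ArithmeticFunction.moebius m : ℤ) : ℂ)‖ ≤ 1 := by
  rw [Complex.norm_intCast]
  have := ArithmeticFunction.abs_moebius_le_one (n := m)
  exact_mod_cast this

lemma norm_mul_moebius_le {z : ℂ} {B : ℝ} (hz : ‖z‖ ≤ B) (m : ℕ) :
    ‖z * ((ArithmeticFunction.moebius m : ℤ) : ℂ)‖ ≤ B := by
  rw [norm_mul]
  calc ‖z‖ * ‖((ArithmeticFunction.moebius m : ℤ) : ℂ)‖ ≤ ‖z‖ * 1 :=
        mul_le_mul_of_nonneg_left (norm_moebius_le m) (norm_nonneg _)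
    _ ≤ B := by rw [mul_one]; exact hz

lemma window_eq (f : G ⧸ Γ → ℂ) (g x : G) (n H : ℕ) :
    ∑ m ∈ Finset.Ioc n (n + H), f (QuotientGroup.mk (g ^ m * x) : G ⧸ Γ) *
        ((ArithmeticFunction.moebius m : ℤ) : ℂ) =
      ∑ h ∈ Finset.Icc 1 H, f (QuotientGroup.mk (g ^ (h + n) * x) : G ⧸ Γ) *
        ((ArithmeticFunction.moebius (n + h) : ℤ) : ℂ) := by
  have h1 : Finset.Ioc n (n + H) = (Finset.Icc 1 H).image (fun h => n + h) := by
    ext m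
    simp only [Finset.mem_Ioc, Finset.mem_image, Finset.mem_Icc]
    constructor
    · intro h; exact ⟨m - n, by omega, by omega⟩
    · rintro ⟨h, h1, rfl⟩; omega
  rw [h1, Finset.sum_image (fun x _ y _ hxy => by simpa using hxy)]
  exact Finset.sum_congr rfl fun h _ => by rw [add_comm h n]

lemma good_seqs_of_weak (f : G ⧸ Γ → ℂ) (x₀ : G) (B : ℝ) (hB : ∀ x, ‖f x‖ ≤ B) (𝒩 : Set ℕ)
    (C : ℕ) (h𝒩 : ∀ N : ℕ, 1 ≤ N → ∃ N' ∈ 𝒩, N ≤ N' ∧ N' ≤ N ^ C) (hw : WeakAt Γ 𝒩 f x₀) :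
    Good (Seqs Γ f x₀) := by
  have hB0 : 0 ≤ B := le_trans (norm_nonneg _) (hB (QuotientGroup.mk 1))
  refine good_of_weak (Seqs Γ f x₀) B hB0 ?_ 𝒩 C h𝒩 ?_ ?_
  · rintro _ ⟨g, rfl⟩ m
    exact norm_mul_moebius_le (hB _) m
  · intro ε hε
    obtain ⟨⟨H, hH, N₀, h⟩, -⟩ := hw ε hε
    refine ⟨H, hH, N₀, fun N hN hN₀ c hc => le_trans ?_ (h N hN hN₀)⟩
    rw [S_eq]
    apply Finset.sum_le_sum
    intro n _
    apply mul_le_mul_of_nonneg_left _ (by positivity)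
    rcases hc n with h0 | ⟨g, hg⟩
    · simp only [h0, Pi.zero_apply, Finset.sum_const_zero, norm_zero]
      exact W_nonneg Γ f x₀ H n
    · rw [← hg, window_eq Γ f g x₀ n H]
      exact le_ciSup (W_bdd Γ f x₀ B hB H n) g
  · intro ε hε
    obtain ⟨-, M₀, h⟩ := hw ε hε
    refine ⟨M₀, fun M hM c hc => ?_⟩
    obtain ⟨g, rfl⟩ := hc
    exact h M hM g

/-- the passage from the estimate of Q1 at `N = H` to initial segments -/
lemma initial_of_Q1 (f : G ⧸ Γ → ℂ) (x₀ : G) (B : ℝ) (hB : ∀ x, ‖f x‖ ≤ B)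
    (hQ : ∀ ε : ℝ, 0 < ε → ∃ H₀ : ℕ, ∀ N H : ℕ, H₀ ≤ H → H ≤ N →
        S Γ f x₀ N H ≤ ε * (H : ℝ) * Real.log (N : ℝ)) (ε : ℝ) (hε : 0 < ε) :
    ∃ M₀ : ℕ, ∀ M : ℕ, M₀ ≤ M → ∀ g : G,
      ‖∑ m ∈ Finset.Icc 1 M, f (QuotientGroup.mk (g ^ m * x₀) : G ⧸ Γ) *
        ((ArithmeticFunction.moebius m : ℤ) : ℂ)‖ ≤ ε * (M : ℝ) := by
  have hB0 : 0 ≤ B := le_trans (norm_nonneg _) (hB (QuotientGroup.mk 1))
  obtain ⟨H₀, h₀⟩ := hQ (ε / 8) (by positivity)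
  set δ : ℝ := ε / (4 * (B + 1) + ε) with hδ
  have hδ0 : 0 < δ := by positivity
  have hδ1 : δ ≤ 1 := by
    rw [hδ, div_le_one (by positivity)]; linarith
  have hδB : 2 * (δ * B) ≤ ε / 2 := by
    have h1 : δ * (4 * (B + 1)) ≤ ε := by
      rw [hδ, div_mul_eq_mul_div, div_le_iff₀ (by positivity)]
      nlinarith
    nlinarith
  obtain ⟨K, hK⟩ := exists_nat_ge ((1 / δ) ^ 2)
  refine ⟨max (max H₀ K) 3, fun M hM g => ?_⟩
  have hMH : H₀ ≤ M := le_trans (le_trans (le_max_left _ _) (le_max_left _ _)) hM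
  have hMK : K ≤ M := le_trans (le_trans (le_max_right _ _) (le_max_left _ _)) hM
  have hM3 : 3 ≤ M := le_trans (le_max_right _ _) hM
  have hMr : (3 : ℝ) ≤ M := by exact_mod_cast hM3
  have hlog := one_le_log hM3
  by_contra hcon
  push Not at hcon
  set T : ℝ := ‖∑ m ∈ Finset.Icc 1 M, f (QuotientGroup.mk (g ^ m * x₀) : G ⧸ Γ) *
        ((ArithmeticFunction.moebius m : ℤ) : ℂ)‖ with hT
  set R : ℕ := ⌊δ * M⌋₊ with hR
  have hRle : (R : ℝ) ≤ δ * M := Nat.floor_le (by positivity)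
  have hRM : R ≤ M := by
    have : (R : ℝ) ≤ M := by nlinarith
    exact_mod_cast this
  -- lower bound in the windows
  have hW : ∀ n ∈ Finset.Icc 1 R, ε / 2 * M ≤ W Γ f x₀ M n := by
    intro n hn
    rw [Finset.mem_Icc] at hn
    have hnr : (n : ℝ) ≤ δ * M := le_trans (by exact_mod_cast hn.2) hRle
    have h1 := le_ciSup (W_bdd Γ f x₀ B hB M n) g
    have h2 := window_eq Γ f g x₀ n M
    have h3 : ‖∑ m ∈ Finset.Ioc n (n + M), f (QuotientGroup.mk (g ^ m * x₀) : G ⧸ Γ) *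
        ((ArithmeticFunction.moebius m : ℤ) : ℂ)‖ ≤ W Γ f x₀ M n := by
      rw [h2]
      exact h1
    have h4 : ∑ m ∈ Finset.Icc 1 M, f (QuotientGroup.mk (g ^ m * x₀) : G ⧸ Γ) *
        ((ArithmeticFunction.moebius m : ℤ) : ℂ) =
        (∑ m ∈ Finset.Ioc 0 n, f (QuotientGroup.mk (g ^ m * x₀) : G ⧸ Γ) *
        ((ArithmeticFunction.moebius m : ℤ) : ℂ)) +
        (∑ m ∈ Finset.Ioc n (n + M), f (QuotientGroup.mk (g ^ m * x₀) : G ⧸ Γ) *
        ((ArithmeticFunction.moebius m : ℤ) : ℂ)) -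
        ∑ m ∈ Finset.Ioc M (n + M), f (QuotientGroup.mk (g ^ m * x₀) : G ⧸ Γ) *
        ((ArithmeticFunction.moebius m : ℤ) : ℂ) := by
      have e0 : Finset.Icc 1 M = Finset.Ioc 0 M := by
        ext m; simp only [Finset.mem_Icc, Finset.mem_Ioc]; omega
      rw [e0, Finset.sum_Ioc_consecutive _ (Nat.zero_le _) (by omega), eq_sub_iff_add_eq]
      exact Finset.sum_Ioc_consecutive _ (Nat.zero_le _) (by omega)
    have h5 : ‖∑ m ∈ Finset.Ioc 0 n, f (QuotientGroup.mk (g ^ m * x₀) : G ⧸ Γ) *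
        ((ArithmeticFunction.moebius m : ℤ) : ℂ)‖ ≤ n * B :=
      norm_window_le (c := fun m => f (QuotientGroup.mk (g ^ m * x₀) : G ⧸ Γ) *
        ((ArithmeticFunction.moebius m : ℤ) : ℂ)) hB0
        (fun m => norm_mul_moebius_le (hB _) m) le_rfl (by omega)
    have h6 : ‖∑ m ∈ Finset.Ioc M (n + M), f (QuotientGroup.mk (g ^ m * x₀) : G ⧸ Γ) *
        ((ArithmeticFunction.moebius m : ℤ) : ℂ)‖ ≤ n * B :=
      norm_window_le (c := fun m => f (QuotientGroup.mk (g ^ m * x₀) : G ⧸ Γ) *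
        ((ArithmeticFunction.moebius m : ℤ) : ℂ)) hB0
        (fun m => norm_mul_moebius_le (hB _) m) le_rfl (by omega)
    have h7 : T ≤ n * B + W Γ f x₀ M n + n * B := by
      rw [hT, h4]
      refine le_trans (norm_sub_le _ _) (add_le_add (le_trans (norm_add_le _ _) ?_) h6)
      exact add_le_add h5 h3
    have h8 : (n : ℝ) * B ≤ δ * B * M := by nlinarith
    nlinarith
  have hS := h₀ M M hMH le_rfl
  rw [S_eq] at hS
  have hlow : ε / 2 * M * Real.log (δ * M) ≤ ε / 8 * M * Real.log M := by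
    calc ε / 2 * M * Real.log (δ * M) ≤ ε / 2 * M * ∑ n ∈ Finset.Icc 1 R, (1 / (n : ℝ)) := by
          apply mul_le_mul_of_nonneg_left _ (by positivity)
          have h1 := log_add_one_le_harmonic R
          have h2 : (harmonic R : ℝ) = ∑ n ∈ Finset.Icc 1 R, (1 : ℝ) / n := by
            rw [harmonic_eq_sum_Icc]; push_cast; simp
          rw [← h2]
          refine le_trans (Real.log_le_log (by positivity) ?_) h1
          push_cast
          exact (Nat.lt_floor_add_one (δ * (M : ℝ))).le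
      _ = ∑ n ∈ Finset.Icc 1 R, (1 / (n : ℝ)) * (ε / 2 * M) := by
          rw [Finset.mul_sum]; exact Finset.sum_congr rfl fun n _ => by ring
      _ ≤ ∑ n ∈ Finset.Icc 1 R, (1 / (n : ℝ)) * W Γ f x₀ M n :=
          Finset.sum_le_sum fun n hn => mul_le_mul_of_nonneg_left (hW n hn) (by positivity)
      _ ≤ ∑ n ∈ Finset.Icc 1 M, (1 / (n : ℝ)) * W Γ f x₀ M n := by
          apply Finset.sum_le_sum_of_subset_of_nonneg (Finset.Icc_subset_Icc_right hRM)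
          intro n _ _
          exact mul_nonneg (by positivity) (W_nonneg Γ f x₀ M n)
      _ ≤ _ := hS
  have h9 : Real.log (δ * M) = Real.log M - Real.log (1 / δ) := by
    rw [Real.log_mul hδ0.ne' (by positivity), one_div, Real.log_inv]; ring
  have h10 : 2 * Real.log (1 / δ) ≤ Real.log M := by
    have : (2 : ℝ) * Real.log (1 / δ) = Real.log ((1 / δ) ^ 2) := by
      rw [Real.log_pow]; norm_num
    rw [this]
    apply Real.log_le_log (by positivity)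
    exact le_trans hK (by exact_mod_cast hMK)
  rw [h9] at hlow
  have h11 : ε / 2 * M * (Real.log M / 2) ≤ ε / 2 * M * (Real.log M - Real.log (1 / δ)) :=
    mul_le_mul_of_nonneg_left (by linarith) (by positivity)
  have h12 : 0 < ε * M * Real.log M := by positivity
  nlinarith

end

section
variable {G : Type} [Group G] [TopologicalSpace G] [IsTopologicalGroup G]
    [LocallyCompactSpace G] (Γ : Subgroup G) [CompactSpace (G ⧸ Γ)]

/-- a compact set of representatives -/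
lemma exists_compact_reps : ∃ K : Set G, IsCompact K ∧ ∀ x : G, ∃ k ∈ K, ∃ γ ∈ Γ, x = k * γ := by
  have h1 : ∀ x : G, ∃ K : Set G, IsCompact K ∧ x ∈ interior K := fun x =>
    exists_compact_mem_nhds x |>.imp fun K hK => ⟨hK.1, mem_interior_iff_mem_nhds.2 hK.2⟩
  choose K hK hxK using h1
  obtain ⟨t, ht⟩ := (isCompact_univ (X := G ⧸ Γ)).elim_finite_subcover
    (fun x : G => (QuotientGroup.mk : G → G ⧸ Γ) '' interior (K x))
    (fun x => QuotientGroup.isOpenMap_coe _ isOpen_interior) (by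
      intro y _
      obtain ⟨x, rfl⟩ := QuotientGroup.mk_surjective y
      exact Set.mem_iUnion.2 ⟨x, x, hxK x, rfl⟩)
  refine ⟨⋃ x ∈ t, K x, t.isCompact_biUnion fun x _ => hK x, fun x => ?_⟩
  have := ht (Set.mem_univ (QuotientGroup.mk x : G ⧸ Γ))
  simp only [Set.mem_iUnion, Set.mem_image] at this
  obtain ⟨y, hy, k, hk, hkx⟩ := this
  refine ⟨k, Set.mem_biUnion hy (interior_subset hk), k⁻¹ * x, QuotientGroup.eq.1 hkx, ?_⟩
  group

/-- translation of a continuous function -/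
noncomputable def transl (f : C(G ⧸ Γ, ℂ)) (k : G) : C(G ⧸ Γ, ℂ) :=
  ⟨fun y => f (k • y), f.continuous.comp (continuous_const_smul k)⟩

omit [CompactSpace (G ⧸ Γ)] in
lemma continuous_transl : Continuous fun p : C(G ⧸ Γ, ℂ) × G => transl Γ p.1 p.2 := by
  apply ContinuousMap.continuous_of_continuous_uncurry
  show Continuous fun q : (C(G ⧸ Γ, ℂ) × G) × (G ⧸ Γ) => q.1.1 (q.1.2 • q.2)
  have h1 : Continuous fun q : (C(G ⧸ Γ, ℂ) × G) × (G ⧸ Γ) => q.1.2 • q.2 :=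
    (continuous_snd.comp continuous_fst).smul continuous_snd
  exact (continuous_fst.comp continuous_fst).eval h1

omit [IsTopologicalGroup G] [LocallyCompactSpace G] in
/-- the continuous functions whose sequences satisfy the estimate form a closed subspace -/
lemma good_of_dense (x₀ : G) (D : Set C(G ⧸ Γ, ℂ)) (hD : ∀ f ∈ D, Good (Seqs Γ f x₀))
    (hdense : Dense (Submodule.span ℂ D : Set C(G ⧸ Γ, ℂ))) (f : C(G ⧸ Γ, ℂ)) :
    Good (Seqs Γ f x₀) := by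
  let V : Submodule ℂ C(G ⧸ Γ, ℂ) :=
    { carrier := {f | Good (Seqs Γ f x₀)}
      add_mem' := by
        intro f₁ f₂ h1 h2
        refine Good.split h1 h2 ?_
        rintro _ ⟨g, rfl⟩
        exact ⟨_, _, Or.inr ⟨g, rfl⟩, Or.inr ⟨g, rfl⟩, fun m => by
          simp only [ContinuousMap.add_apply]; ring⟩
      zero_mem' := by
        refine Good.smul (Ψ := Seqs Γ (0 : C(G ⧸ Γ, ℂ)) x₀) ?_ 1 (fun c hc => ⟨c, hc, by simp⟩)
        intro ε hε
        refine ⟨0, fun N H _ _ c a b hc _ => ?_⟩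
        have h0 : ∀ n ∈ Finset.Icc 1 N,
            (1 / (n : ℝ)) * ‖∑ m ∈ Finset.Ioc (a n) (b n), c n m‖ = 0 := by
          intro n _
          rcases hc n with h | ⟨g, h⟩
          · simp [h]
          · rw [← h]; simp
        rw [Finset.sum_eq_zero h0]
        have := Real.log_natCast_nonneg N
        positivity
      smul_mem' := by
        intro z f h
        refine Good.smul h z ?_
        rintro _ ⟨g, rfl⟩
        exact ⟨_, ⟨g, rfl⟩, fun m => by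
          simp only [ContinuousMap.smul_apply, smul_eq_mul]; ring⟩ }
  have hV : Submodule.span ℂ D ≤ V := Submodule.span_le.2 hD
  refine Good.approx fun η hη => ?_
  obtain ⟨f', hf', hd⟩ := hdense.exists_dist_lt f hη
  refine ⟨Seqs Γ f' x₀, hV hf', ?_⟩
  rintro _ ⟨g, rfl⟩
  refine ⟨_, ⟨g, rfl⟩, fun m => ?_⟩
  rw [← sub_mul]
  apply norm_mul_moebius_le
  rw [← dist_eq_norm]
  exact le_trans (ContinuousMap.dist_apply_le_dist _) hd.le

/-- from single functions and one base point to compact families and moving base points -/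
lemma strong_of_good (x₀ : G) (h : ∀ f : C(G ⧸ Γ, ℂ), Good (Seqs Γ f x₀)) : StrongEst Γ := by
  intro F hF
  obtain ⟨K, hK, hrep⟩ := exists_compact_reps Γ
  have hF' : IsCompact ((fun p : C(G ⧸ Γ, ℂ) × G => transl Γ p.1 (p.2 * x₀⁻¹)) '' (F ×ˢ K)) := by
    refine (hF.prod hK).image ?_
    exact (continuous_transl Γ).comp
      (continuous_fst.prodMk (continuous_snd.mul continuous_const))
  have hgood : Good {c | ∃ f ∈ F, ∃ g x : G, c = fun m : ℕ =>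
      f (QuotientGroup.mk (g ^ m * x) : G ⧸ Γ) * ((ArithmeticFunction.moebius m : ℤ) : ℂ)} := by
    refine Good.approx fun η hη => ?_
    obtain ⟨t, -, htfin, ht⟩ := hF'.finite_cover_balls hη
    refine ⟨⋃ f ∈ t, Seqs Γ f x₀, Good.biUnion htfin fun f _ => h f, ?_⟩
    rintro _ ⟨f, hf, g, x, rfl⟩
    obtain ⟨k, hk, γ, hγ, rfl⟩ := hrep x
    have h1 := ht ⟨(f, k), ⟨hf, hk⟩, rfl⟩
    simp only [Set.mem_iUnion, Metric.mem_ball] at h1
    obtain ⟨f', hf', hd⟩ := h1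
    set k' := k * x₀⁻¹ with hk'
    refine ⟨_, Set.mem_biUnion hf' ⟨k'⁻¹ * g * k', rfl⟩, fun m => ?_⟩
    rw [← sub_mul]
    apply norm_mul_moebius_le
    have h2 : (QuotientGroup.mk (g ^ m * (k * γ)) : G ⧸ Γ) =
        k' • (QuotientGroup.mk ((k'⁻¹ * g * k') ^ m * x₀) : G ⧸ Γ) := by
      show (QuotientGroup.mk (g ^ m * (k * γ)) : G ⧸ Γ) =
        QuotientGroup.mk (k' * ((k'⁻¹ * g * k') ^ m * x₀))
      have e : (k'⁻¹ * g * k') ^ m = k'⁻¹ * g ^ m * k' := by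
        have := conj_pow (i := m) (a := k'⁻¹) (b := g)
        simpa using this
      rw [e, QuotientGroup.eq]
      have : (g ^ m * (k * γ))⁻¹ * (k' * (k'⁻¹ * g ^ m * k' * x₀)) = γ⁻¹ := by
        rw [hk']; group
      rw [this]
      exact Γ.inv_mem hγ
    rw [h2, ← dist_eq_norm]
    refine le_trans ?_ hd.le
    exact ContinuousMap.dist_apply_le_dist (f := transl Γ f k') (g := f')
      (QuotientGroup.mk ((k'⁻¹ * g * k') ^ m * x₀) : G ⧸ Γ)
  intro ε hε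
  obtain ⟨H₀, h₀⟩ := hgood ε hε
  exact ⟨H₀, fun N H h1 h2 f g x a b hf hab =>
    h₀ N H h1 h2 _ a b (fun n => Or.inr ⟨f n, hf n, g n, x n, rfl⟩) hab⟩

end

section
variable {G : Type} [Group G] (Γ : Subgroup G)

/-- the estimate with free choices implies the estimate of Q1 -/
lemma Q1_of_good (f : G ⧸ Γ → ℂ) (x₀ : G) (hs : Good (Seqs Γ f x₀)) (ε : ℝ) (hε : 0 < ε) :
    ∃ H₀ : ℕ, ∀ N H : ℕ, H₀ ≤ H → H ≤ N →
      S Γ f x₀ N H ≤ ε * (H : ℝ) * Real.log (N : ℝ) := by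
  obtain ⟨H₀, h₀⟩ := hs ε hε
  refine ⟨H₀, fun N H h1 h2 => ?_⟩
  apply le_of_forall_pos_le_add
  intro δ hδ
  set L : ℝ := ∑ n ∈ Finset.Icc 1 N, (1 / (n : ℝ)) with hL
  have hL0 : 0 ≤ L := Finset.sum_nonneg fun n _ => by positivity
  have hex : ∀ n : ℕ, ∃ g : G, W Γ f x₀ H n ≤
      ‖∑ m ∈ Finset.Ioc n (n + H), f (QuotientGroup.mk (g ^ m * x₀) : G ⧸ Γ) *
        ((ArithmeticFunction.moebius m : ℤ) : ℂ)‖ + δ / (L + 1) := by
    intro n
    obtain ⟨g, hg⟩ := exists_lt_of_lt_ciSup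
      (show W Γ f x₀ H n - δ / (L + 1) < W Γ f x₀ H n by
        have : 0 < δ / (L + 1) := by positivity
        linarith)
    refine ⟨g, ?_⟩
    rw [window_eq]
    linarith
  choose g hg using hex
  have h3 := h₀ N H h1 h2 (fun n m => f (QuotientGroup.mk (g n ^ m * x₀) : G ⧸ Γ) *
        ((ArithmeticFunction.moebius m : ℤ) : ℂ)) (fun n => n) (fun n => n + H)
    (fun n => Or.inr ⟨g n, rfl⟩) (fun n => ⟨le_rfl, le_rfl⟩)
  rw [S_eq]
  calc ∑ n ∈ Finset.Icc 1 N, (1 / (n : ℝ)) * W Γ f x₀ H n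
      ≤ ∑ n ∈ Finset.Icc 1 N, ((1 / (n : ℝ)) *
        ‖∑ m ∈ Finset.Ioc n (n + H), f (QuotientGroup.mk (g n ^ m * x₀) : G ⧸ Γ) *
        ((ArithmeticFunction.moebius m : ℤ) : ℂ)‖ + (δ / (L + 1)) * (1 / (n : ℝ))) := by
        apply Finset.sum_le_sum
        intro n _
        calc _ ≤ (1 / (n : ℝ)) * (‖∑ m ∈ Finset.Ioc n (n + H),
              f (QuotientGroup.mk (g n ^ m * x₀) : G ⧸ Γ) *
              ((ArithmeticFunction.moebius m : ℤ) : ℂ)‖ + δ / (L + 1)) :=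
              mul_le_mul_of_nonneg_left (hg n) (by positivity)
          _ = _ := by ring
    _ = _ := Finset.sum_add_distrib
    _ ≤ ε * H * Real.log N + δ := by
        apply add_le_add h3
        rw [← Finset.mul_sum, ← hL, div_mul_eq_mul_div, div_le_iff₀ (by positivity)]
        nlinarith

/-- Single function and base point: Q1's estimate is equivalent to its weak form. -/
theorem single_iff (f : G ⧸ Γ → ℂ) (x₀ : G) (B : ℝ) (hB : ∀ x, ‖f x‖ ≤ B) (𝒩 : Set ℕ) (C : ℕ)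
    (h𝒩 : ∀ N : ℕ, 1 ≤ N → ∃ N' ∈ 𝒩, N ≤ N' ∧ N' ≤ N ^ C) :
    (∀ ε : ℝ, 0 < ε → ∃ H₀ : ℕ, ∀ N H : ℕ, H₀ ≤ H → H ≤ N →
      S Γ f x₀ N H ≤ ε * (H : ℝ) * Real.log (N : ℝ)) ↔ WeakAt Γ 𝒩 f x₀ := by
  constructor
  · intro h1 ε hε
    refine ⟨?_, initial_of_Q1 Γ f x₀ B hB h1 ε hε⟩
    obtain ⟨H₀, h₀⟩ := h1 ε hε
    exact ⟨max H₀ 1, le_max_right _ _, max H₀ 1, fun N _ hN => h₀ N _ (le_max_left _ _) hN⟩
  · intro h1 ε hε
    exact Q1_of_good Γ f x₀ (good_seqs_of_weak Γ f x₀ B hB 𝒩 C h𝒩 h1) ε hε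

end

section
variable {G : Type} [Group G] [TopologicalSpace G] (Γ : Subgroup G) [CompactSpace (G ⧸ Γ)]

/-- the strong estimate implies the estimate of Q1 -/
lemma Q1_of_strong (hs : StrongEst Γ) (f : C(G ⧸ Γ, ℂ)) (x₀ : G) (ε : ℝ) (hε : 0 < ε) :
    ∃ H₀ : ℕ, ∀ N H : ℕ, H₀ ≤ H → H ≤ N →
      S Γ f x₀ N H ≤ ε * (H : ℝ) * Real.log (N : ℝ) := by
  refine Q1_of_good Γ f x₀ ?_ ε hε
  intro ε hε
  obtain ⟨H₀, h₀⟩ := hs {f} isCompact_singleton ε hε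
  refine ⟨H₀, fun N H h1 h2 c a b hc hab => ?_⟩
  have h' : ∀ n, ∃ (g : G) (b' : ℕ), b' ≤ n + H ∧
      ‖∑ m ∈ Finset.Ioc (a n) (b n), c n m‖ =
      ‖∑ m ∈ Finset.Ioc (a n) b', f (QuotientGroup.mk (g ^ m * x₀) : G ⧸ Γ) *
        ((ArithmeticFunction.moebius m : ℤ) : ℂ)‖ := by
    intro n
    rcases hc n with h | ⟨g, h⟩
    · exact ⟨1, 0, Nat.zero_le _, by simp [h]⟩
    · exact ⟨g, b n, (hab n).2, by rw [← h]⟩
  choose g b' hb' hgb using h'
  have h3 := h₀ N H h1 h2 (fun _ => f) g (fun _ => x₀) a b' (fun _ => rfl)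
    (fun n => ⟨(hab n).1, hb' n⟩)
  refine le_trans (le_of_eq ?_) h3
  exact Finset.sum_congr rfl fun n _ => by rw [hgb n]

end

/-- Q1 for a nilmanifold, its weak form and its strong form are equivalent. -/
theorem strong_weak_nil :
    ∀ (E : Type) [NormedAddCommGroup E] [NormedSpace ℝ E] [FiniteDimensional ℝ E]
      (G : Type) [Group G] [TopologicalSpace G] [ChartedSpace E G]
      [LieGroup 𝓘(ℝ, E) ((⊤ : ℕ∞) : WithTop ℕ∞) G]
      [SimplyConnectedSpace G] [Group.IsNilpotent G]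
      (Γ : Subgroup G) [DiscreteTopology Γ] [CompactSpace (G ⧸ Γ)]
      (𝒩 : Set ℕ) (C : ℕ), (∀ N : ℕ, 1 ≤ N → ∃ N' ∈ 𝒩, N ≤ N' ∧ N' ≤ N ^ C) →
    (∀ (f : G ⧸ Γ → ℂ) (x₀ : G), Continuous f →
      ((∀ ε : ℝ, 0 < ε → ∃ H₀ : ℕ, ∀ N H : ℕ, H₀ ≤ H → H ≤ N →
        S Γ f x₀ N H ≤ ε * (H : ℝ) * Real.log (N : ℝ)) ↔ WeakAt Γ 𝒩 f x₀)) ∧
    ∀ (D : Set C(G ⧸ Γ, ℂ)) (x₁ : G),
      (∀ f ∈ D, ∀ y : G, ∃ K : NNReal, ∃ U ∈ nhds (extChartAt 𝓘(ℝ, E) y y),
        LipschitzOnWith K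
          (fun v : E => f (QuotientGroup.mk ((extChartAt 𝓘(ℝ, E) y).symm v) : G ⧸ Γ)) U) →
      Dense (Submodule.span ℂ D : Set C(G ⧸ Γ, ℂ)) →
    List.TFAE [
      ∀ f ∈ D, WeakAt Γ 𝒩 f x₁,
      ∀ (f : G ⧸ Γ → ℂ) (x₀ : G),
        (∀ y : G, ∃ K : NNReal, ∃ U ∈ nhds (extChartAt 𝓘(ℝ, E) y y),
          LipschitzOnWith K
            (fun v : E => f (QuotientGroup.mk ((extChartAt 𝓘(ℝ, E) y).symm v) : G ⧸ Γ)) U) →
        ∀ ε : ℝ, 0 < ε → ∃ H₀ : ℕ, ∀ N H : ℕ, H₀ ≤ H → H ≤ N →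
          S Γ f x₀ N H ≤ ε * (H : ℝ) * Real.log (N : ℝ),
      StrongEst Γ] := by
  intro E _ _ _ G _ _ _ _ _ _ Γ _ _ 𝒩 C h𝒩
  refine ⟨fun f x₀ hf => ?_, fun D x₁ hlip hdense => ?_⟩
  · exact single_iff Γ f x₀ ‖(⟨f, hf⟩ : C(G ⧸ Γ, ℂ))‖
      (fun x => ContinuousMap.norm_coe_le_norm (⟨f, hf⟩ : C(G ⧸ Γ, ℂ)) x) 𝒩 C h𝒩
  have : IsTopologicalGroup G := topologicalGroup_of_lieGroup 𝓘(ℝ, E) ((⊤ : ℕ∞) : WithTop ℕ∞)
  have : LocallyCompactSpace G := ChartedSpace.locallyCompactSpace E G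
  tfae_have 1 → 3 := by
    intro hw
    apply strong_of_good Γ x₁
    apply good_of_dense Γ x₁ D _ hdense
    intro f hf
    exact good_seqs_of_weak Γ f x₁ ‖f‖ (fun x => ContinuousMap.norm_coe_le_norm f x) 𝒩 C h𝒩
      (hw f hf)
  tfae_have 3 → 2 := by
    intro hs f x₀ hf ε hε
    have hfc := continuous_of_chartLipschitz E G Γ f hf
    exact Q1_of_strong Γ hs ⟨f, hfc⟩ x₀ ε hε
  tfae_have 2 → 1 := by
    intro hQ f hf
    exact (single_iff Γ f x₁ ‖f‖ (fun x => ContinuousMap.norm_coe_le_norm f x) 𝒩 C h𝒩).1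
      (hQ f x₁ (hlip f hf))
  tfae_finish

end Pool.Agent.MP663568h87
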